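import Pool.Agent.N202.QR.Defs
import Pool.Agent.U124.HQ.Stm

/-!
# Crystalline cohomology of abelian varieties over finite fields, with its semilinear Frobenius, and
conditions on the places above `p` of the fields of complex multiplication: definitions
-/

set_option autoImplicit false

namespace Pool.Agent.U124.HC

open NumberField Module Pool.Agent.W495.TA Pool.Agent.W495.TC Pool.Agent.TH117.PO
  Pool.Agent.TH117.BL Pool.Agent.N202.QR
open scoped TensorProduct

variable {p : ℕ} [Fact p.Prime] {ν : PadicAlgCl p ≃+* ℂ}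

/-- The multiplication by `b = (b i)`, an element of the product of the fields `E i`, on the
homology `H_1(X, ℚ)` of the lifting: an endomorphism of the abelian variety (up to isogeny). -/
def mulH (Y : RedAV p ν) (b : Y.X.H1) : Y.X.H1 →ₗ[ℚ] Y.X.H1 where
  toFun x := fun i => b i * x i
  map_add' x y := by
    funext i
    exact mul_add _ _ _
  map_smul' c x := by
    funext i
    exact mul_smul_comm c _ (x i)

/-- The fraction field `K₀` of the ring of Witt vectors of a finite field of characteristic `p`, in
`Ω`: an extension of `ℚ_p` which is Galois with Galois group generated by the Frobenius automorphism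
`σ`. -/
structure WittField (p : ℕ) [Fact p.Prime] (Ω : Type) [Field Ω] [Algebra ℚ_[p] Ω] where
  K₀ : Type
  [fieldK : Field K₀]
  [algebraK : Algebra ℚ_[p] K₀]
  [algebraΩ : Algebra K₀ Ω]
  [tower : IsScalarTower ℚ_[p] K₀ Ω]
  [normal : Normal ℚ_[p] K₀]
  σ : K₀ ≃ₐ[ℚ_[p]] K₀
  generates : ∀ τ : K₀ ≃ₐ[ℚ_[p]] K₀, ∃ n : ℕ, ∀ x, τ x = (σ.symm)^[n] x

attribute [instance] WittField.fieldK WittField.algebraK WittField.algebraΩ
  WittField.tower WittField.normal

/-- The map `Φ` is additive and semilinear for the automorphism `τ` of the field. -/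
def IsSemi {F V : Type} [Field F] [AddCommGroup V] [Module F V] (τ : F → F) (Φ : V → V) : Prop :=
  (∀ v w, Φ (v + w) = Φ v + Φ w) ∧ ∀ (c : F) v, Φ (c • v) = τ c • Φ v

/-- The isomorphism `e` is compatible with the actions `ρ` and `μ`. -/
def IsCompat {F Ω V H B : Type} [Field F] [Field Ω] [Algebra F Ω] [Algebra ℚ Ω] [AddCommGroup V]
    [Module F V] [AddCommGroup H] [Module ℚ H] (ρ : B → V →ₗ[F] V) (μ : B → H →ₗ[ℚ] H)
    (e : (Ω ⊗[F] V) ≃ₗ[Ω] (Ω ⊗[ℚ] H)) : Prop :=
  ∀ b x, e ((ρ b).baseChange Ω x) = (μ b).baseChange Ω (e x)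

/-- A crystalline structure, with coefficients in the fraction field `K₀` of the ring of Witt vectors
of a finite field, on the extension of scalars `Ω ⊗ H` of a vector space `H` over `ℚ` with the
operators `μ b`: a vector space `V₀` over `K₀` with a semilinear map `Φ`, and an isomorphism `e` of
`Ω ⊗ V₀` with `Ω ⊗ H`; the operators act also on `V₀` (by `ρ b`), and this action commutes with `Φ`
and is compatible with `e`. -/
structure CrysForm (p : ℕ) [Fact p.Prime] (Ω : Type) [Field Ω] [Algebra ℚ Ω] [Algebra ℚ_[p] Ω]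
    {H B : Type} [AddCommGroup H] [Module ℚ H] (μ : B → H →ₗ[ℚ] H) extends WittField p Ω where
  V₀ : Type
  [groupV : AddCommGroup V₀]
  [moduleV : Module K₀ V₀]
  Φ : V₀ → V₀
  ρ : B → V₀ →ₗ[K₀] V₀
  e : (Ω ⊗[K₀] V₀) ≃ₗ[Ω] (Ω ⊗[ℚ] H)
  semilinear : IsSemi σ.symm Φ
  comm : ∀ b v, Φ (ρ b v) = ρ b (Φ v)
  compat : IsCompat ρ μ e

attribute [instance] CrysForm.groupV CrysForm.moduleV

/-- The first crystalline homology of the abelian variety `Y` over a finite field, with coefficients
in the fraction field `K₀` of the ring of Witt vectors: the vector space `V₀` is dual to the first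
crystalline cohomology group, the semilinear map `Φ` is dual to the crystalline Frobenius
endomorphism, and `e` is the comparison isomorphism of `Ω ⊗ V₀` with `Ω ⊗ H_1(X, ℚ)`, where `X` is the
lifting of `Y` (the isomorphisms between crystalline homology, de Rham homology and singular homology,
for the isomorphism `ν` of `Ω` with `ℂ`; as the Tate twists are trivialized it is multiplied by a
square root of `2 π i`). The elements of the product of the fields `E i` are endomorphisms of `Y`, they
act on `V₀`. -/
abbrev CrysHomology (Ω : Type) [Field Ω] [CharZero Ω] [Algebra ℚ_[p] Ω] (Y : RedAV p ν) : Type 1 :=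
  CrysForm p Ω (mulH Y)

/-- The functions `f` and `z` agree: `f` is the restriction to `V` of the form `z`. -/
def IsRestriction {F Ω V T κ : Type} [Field F] [Field Ω] [Algebra F Ω] [AddCommGroup V]
    [Module F V] [AddCommMonoid T] [Module Ω T] (e : (Ω ⊗[F] V) ≃ₗ[Ω] T) (z : (κ → T) → Ω)
    (f : (κ → V) → F) : Prop :=
  ∀ v, z (fun k => e ((1 : Ω) ⊗ₜ[F] v k)) = algebraMap F Ω (f v)

/-- The form `z` is defined over `K₀`, with values in `K₀` on `V₀`, and it is an eigenvector of the
(semilinear) crystalline Frobenius endomorphism `f ↦ (v ↦ σ (f (Φ v)))`, with an eigenvalue which is a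
power `p ^ m` of `p` (`m` is the codimension). -/
def CrysForm.IsFixed {p : ℕ} [Fact p.Prime] {Ω : Type} [Field Ω] [Algebra ℚ Ω] [Algebra ℚ_[p] Ω]
    {H B : Type} [AddCommGroup H] [Module ℚ H] {μ : B → H →ₗ[ℚ] H} (D : CrysForm p Ω μ)
    {κ : Type} (z : (κ → Ω ⊗[ℚ] H) → Ω) : Prop :=
  ∃ (f : (κ → D.V₀) → D.K₀) (m : ℕ), IsRestriction D.e z f ∧
    ∀ v, D.σ (f fun k => D.Φ (v k)) = (p : D.K₀) ^ m * f v

/-- The classes in the system `C` are crystalline classes which are fixed by the (twisted)
semilinear Frobenius endomorphism: each class of a cycle on `Y` is the class of a cycle over some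
finite field. -/
def AreCrystalline (Ω : Type) [Field Ω] [CharZero Ω] [Algebra ℚ_[p] Ω]
    (C : (Y : RedAV p ν) → (κ : Type) → ((TM Ω Y) [⋀^κ]→ₗ[Ω] Ω) → Prop) : Prop :=
  ∀ {Y : RedAV p ν} {κ : Type} (z : (TM Ω Y) [⋀^κ]→ₗ[Ω] Ω), C Y κ z →
    ∃ D : CrysHomology Ω Y, D.IsFixed z

/-- The exponents depend only on the factor and on the `p`-adic place of its CM field defined by the
embedding. -/
def IsLocal (Z : RedAV p ν) (e : Emb Z → ℕ) : Prop :=
  ∀ (i : Z.X.I) (φ φ' : (Z.X.factor i).E →+* ℂ), SamePlace p ν φ φ' → e ⟨i, φ⟩ = e ⟨i, φ'⟩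

/-- The multiplicative relations between the Frobenius eigenvalues whose exponents depend only on the
`p`-adic places (these are the multiplicative relations between the local norms, from the completions
of the CM fields to `ℚ_p`, of the Frobenius endomorphisms of the factors) are products of relations
between at most two eigenvalues, of relations which are invariant under the automorphisms over `K`,
and of inverses of such relations. -/
def HasQuadraticLocalRelations {K : Type} [Field K] (κ : K →+* ℂ) (Z : RedAV p ν) : Prop :=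
  ∀ e : Emb Z → ℕ, IsRel Z e → IsLocal Z e → (fun w => (e w : ℤ)) ∈ AddSubgroup.closure
    {d : Emb Z → ℤ | ∃ n : Emb Z → ℕ, IsRel Z n ∧ (∑ w, n w ≤ 2 ∨ IsInvariant κ Z n) ∧
      ∀ w, d w = n w}

/-- The CM field `E` has at most one pair of different complex conjugate places above `p`: of any two
embeddings `φ`, `ψ` one defines a place which is its own conjugate, or `ψ` defines the same place as
`φ`, or the conjugate place. -/
def HasOnePair (p : ℕ) [Fact p.Prime] (ν : PadicAlgCl p ≃+* ℂ) (E : Type) [Field E] : Prop :=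
  ∀ φ ψ : E →+* ℂ, SamePlace p ν φ (ComplexEmbedding.conjugate φ) ∨
    SamePlace p ν ψ (ComplexEmbedding.conjugate ψ) ∨ SamePlace p ν φ ψ ∨
      SamePlace p ν φ (ComplexEmbedding.conjugate ψ)

/-- The slopes of the factor `i`, of dimension `g`, are `m / g` and `1 - m / g`, with `m` prime to
`g`: the `p`-adic absolute values of the conjugates of its Frobenius endomorphism over the field with
`q = p ^ a` elements are those of `q ^ (m / g)` and `q ^ (1 - m / g)`. -/
def HasTwoSlopes (Z : RedAV p ν) (i : Z.X.I) : Prop :=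
  ∃ g m : ℕ, finrank ℚ (Z.X.factor i).E = 2 * g ∧ m ≤ g ∧ Nat.Coprime m g ∧
    ∀ φ : (Z.X.factor i).E →+* ℂ,
      ‖ν.symm (φ (Z.π i))‖ ^ g = (‖(p : PadicAlgCl p)‖ ^ Z.a) ^ m ∨
        ‖ν.symm (φ (Z.π i))‖ ^ g = (‖(p : PadicAlgCl p)‖ ^ Z.a) ^ (g - m)

/-- All the places above `p` of the CM field of the factor `i` are their own conjugates, or some
automorphism of `ℂ` maps an embedding `φ` of this field, which defines a place different from its
conjugate, to the complex conjugate embedding, and fixes all the embeddings of the fields of the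
other factors which are not supersingular. (If there is no such other factor, the complex
conjugation does it.) -/
def IsFreeFactor (Z : RedAV p ν) (i : Z.X.I) : Prop :=
  (∀ φ : (Z.X.factor i).E →+* ℂ, SamePlace p ν φ (ComplexEmbedding.conjugate φ)) ∨
    ∃ (σ : ℂ ≃+* ℂ) (φ : (Z.X.factor i).E →+* ℂ),
      ¬ SamePlace p ν φ (ComplexEmbedding.conjugate φ) ∧
      (σ : ℂ →+* ℂ).comp φ = ComplexEmbedding.conjugate φ ∧
      ∀ k, k ≠ i → IsSupersingular Z k ∨
        ∀ ψ : (Z.X.factor k).E →+* ℂ, (σ : ℂ →+* ℂ).comp ψ = ψ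

/-- The field `E` contains the imaginary quadratic field `K` (by `ι`; `κ` is the embedding of `K` in
`ℂ`), and it is equal to `K`; or the automorphisms of `ℂ` are doubly transitive on the embeddings of
`E` over `κ` and no power of `x` is in `K`; or the degree of `E` over `K` is a prime number and no
power of `x` is in `K`; or, in general, all multiplicative relations between the conjugates of `x`
are defined over `K`, up to pairs of complex conjugates. -/
def IsOver {K E : Type} [Field K] [Field E] [NumberField E] (κ : K →+* ℂ) (ι : K →+* E) (q : ℕ)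
    (x : E) : Prop :=
  Function.Surjective ι ∨ (HQ.Stm.IsDoublyTransitive κ ι ∧ HQ.Stm.NoPowerIn ι x) ∨
    ((∃ g : ℕ, g.Prime ∧ finrank ℚ E = 2 * g) ∧ HQ.Stm.NoPowerIn ι x) ∨
      HQ.Stm.RelationsOver κ ι q x

/-- The factor `i` is supersingular; or its CM field has at most one pair of different conjugate
places above `p`, or its slopes are `m / g` and `1 - m / g` as above, and it is free; or its relations
are defined over `K` (`IsOver`) and the automorphisms of `ℂ` which fix the embeddings of the fields of
all the other factors are transitive on the embeddings of its field over `κ` (`IndepOver`). -/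
def IsGoodFactor {K : Type} [Field K] (κ : K →+* ℂ) (Z : RedAV p ν) (i : Z.X.I) : Prop :=
  IsSupersingular Z i ∨
  ((HasOnePair p ν (Z.X.factor i).E ∨ HasTwoSlopes Z i) ∧ IsFreeFactor Z i) ∨
  ∃ ι : K →+* (Z.X.factor i).E, IsOver κ ι (p ^ Z.a) (Z.π i) ∧
    HQ.Stm.IndepOver (F := fun i => (Z.X.factor i).E) κ i ι

end Pool.Agent.U124.HC
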