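import Pool.Agent.U124.HC.Pair

/-!
# The crystalline theorem: slopes, and the assembly
-/

set_option autoImplicit false
set_option linter.unusedSectionVars false
set_option linter.unusedVariables false

namespace Pool.Agent.U124.HC

open NumberField Pool.Agent.H204R3.CM Pool.Agent.W547.KB Pool.Agent.W547.LD Pool.Agent.W547.HR
  Pool.Agent.W495.TA Module Pool.Agent.TH117.PO Pool.Agent.W976.TA Pool.Agent.W417.TA
  Pool.Agent.TH117.BL Pool.Agent.W495.TC Pool.Agent.W495.TB Pool.Agent.TH117.F5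
  Pool.Agent.N202.QR Pool.Agent.U124.HL Pool.Agent.U124.HD
open scoped TensorProduct

noncomputable section

variable {p : ℕ} [Fact p.Prime] {ν : PadicAlgCl p ≃+* ℂ}

theorem pair_of_slopes {Z : RedAV p ν} {i : Z.X.I} (h : HasTwoSlopes Z i) :
    IsSupersingular Z i ∨ HasOnePair p ν (Z.X.factor i).E := by
  classical
  obtain ⟨g, m, hg, hm, hc, h⟩ := h
  have hg0 : 0 < g := by
    have h1 : 0 < finrank ℚ (Z.X.factor i).E := finrank_pos
    omega
  set N : ((Z.X.factor i).E →+* ℂ) → ℝ := fun φ => ‖ν.symm (φ (Z.π i))‖ with hN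
  have hNc : ∀ φ, N φ * N (ComplexEmbedding.conjugate φ) = ‖(p : PadicAlgCl p)‖ ^ Z.a := by
    intro φ
    have h1 := congrArg (fun x => ‖ν.symm x‖) (eig_conj (⟨i, φ⟩ : Emb Z))
    simp only [map_mul, map_pow, map_natCast, norm_mul, norm_pow] at h1
    exact h1
  have hNpos : ∀ φ, 0 < N φ := fun φ =>
    lt_of_le_of_ne (norm_nonneg _) (norm_eig_ne Z ⟨i, φ⟩).symm
  have ha : (Z.a : ℤ) ≠ 0 := by exact_mod_cast Z.pos.ne'
  have hQ : ∀ u v : ℕ, (‖(p : PadicAlgCl p)‖ ^ Z.a) ^ u = (‖(p : PadicAlgCl p)‖ ^ Z.a) ^ v →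
      u = v := by
    intro u v huv
    rw [← pow_mul, ← pow_mul, ← zpow_natCast, ← zpow_natCast] at huv
    have h1 := zpow_inj huv
    push_cast at h1
    exact_mod_cast mul_left_cancel₀ ha h1
  by_cases h2m : 2 * m = g
  · left
    refine ss_of_norm i fun φ => ?_
    have hm0 : m ≠ 0 := by omega
    have h1 : (N φ ^ 2) ^ m = (‖(p : PadicAlgCl p)‖ ^ Z.a) ^ m := by
      rw [← pow_mul, h2m]
      rcases h φ with h1 | h1
      · exact h1
      · rw [show g - m = m by omega] at h1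
        exact h1
    exact (pow_left_inj₀ (sq_nonneg _) (pow_nonneg (norm_nonneg _) _) hm0).1 h1
  · right
    -- the local degrees
    have hdeg : ∀ φ : (Z.X.factor i).E →+* ℂ, g ≤ Nat.card {φ' : (Z.X.factor i).E →+* ℂ //
        SamePlace p ν φ φ'} := by
      intro φ
      have h1 := (Z.frob i).shimuraTaniyama φ
      set d := Nat.card {φ' : (Z.X.factor i).E →+* ℂ // SamePlace p ν φ φ'} with hd
      set c := Nat.card {φ' : (Z.X.factor i).E →+* ℂ // SamePlace p ν φ φ' ∧
        φ' ∈ (Z.X.factor i).Φ} with hcd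
      rw [norm_pow] at h1
      have hd0 : 0 < d := Nat.card_pos_iff.2 ⟨⟨⟨φ, SamePlace.refl φ⟩⟩, inferInstance⟩
      obtain ⟨m', hm', hc'⟩ : ∃ m' : ℕ, N φ ^ g = (‖(p : PadicAlgCl p)‖ ^ Z.a) ^ m' ∧
          Nat.Coprime m' g := by
        rcases h φ with h2 | h2
        · exact ⟨m, h2, hc⟩
        · exact ⟨g - m, h2, (Nat.coprime_self_sub_left hm).2 hc⟩
      have h3 : (‖(p : PadicAlgCl p)‖ ^ Z.a) ^ (m' * d) =
          (‖(p : PadicAlgCl p)‖ ^ Z.a) ^ (c * g) := by
        rw [pow_mul, ← hm', pow_mul, ← h1, ← pow_mul, ← pow_mul, mul_comm g d]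
      have h4 : m' * d = c * g := hQ _ _ h3
      have h5 : g ∣ m' * d := ⟨c, by rw [h4, mul_comm]⟩
      exact Nat.le_of_dvd hd0 ((Nat.coprime_comm.1 hc').dvd_of_dvd_mul_left h5)
    intro φ ψ
    right
    right
    by_contra hcon
    push Not at hcon
    have hcc : ∀ ψ : (Z.X.factor i).E →+* ℂ,
        ComplexEmbedding.conjugate (ComplexEmbedding.conjugate ψ) = ψ := fun ψ => star_star ψ
    let A : Finset ((Z.X.factor i).E →+* ℂ) := Finset.univ.filter fun φ' => SamePlace p ν φ φ'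
    let B : Finset ((Z.X.factor i).E →+* ℂ) :=
      Finset.univ.filter fun φ' => SamePlace p ν φ (ComplexEmbedding.conjugate φ')
    have hA : g ≤ A.card := by
      have h1 := hdeg φ
      rw [Nat.card_eq_fintype_card, Fintype.card_subtype] at h1
      exact h1
    have hB : A.card = B.card := by
      refine Finset.card_bij' (fun x _ => ComplexEmbedding.conjugate x)
        (fun x _ => ComplexEmbedding.conjugate x) ?_ ?_ (fun x _ => hcc x) fun x _ => hcc x
      · intro x hx
        refine Finset.mem_filter.2 ⟨Finset.mem_univ _, ?_⟩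
        rw [hcc]
        exact (Finset.mem_filter.1 hx).2
      · intro x hx
        exact Finset.mem_filter.2 ⟨Finset.mem_univ _, (Finset.mem_filter.1 hx).2⟩
    have hAB : Disjoint A B := by
      rw [Finset.disjoint_left]
      intro x hx hx'
      have h1 : N x = N φ := SamePlace.norm (Finset.mem_filter.1 hx).2 _
      have h2 : N (ComplexEmbedding.conjugate x) = N φ :=
        SamePlace.norm (Finset.mem_filter.1 hx').2 _
      have h3 := hNc x
      rw [h1, h2] at h3
      have h4 : ∀ m' : ℕ, N φ ^ g = (‖(p : PadicAlgCl p)‖ ^ Z.a) ^ m' → 2 * m' = g := by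
        intro m' hm'
        apply hQ
        rw [mul_comm, pow_mul, ← hm', ← h3]
        ring
      rcases h φ with h5 | h5
      · exact h2m (h4 m h5)
      · have h6 := h4 (g - m) h5
        omega
    have hcard : (insert ψ (A ∪ B)).card ≤ Fintype.card ((Z.X.factor i).E →+* ℂ) :=
      Finset.card_le_univ _
    have hψ : ψ ∉ A ∪ B := by
      intro hx
      rcases Finset.mem_union.1 hx with hx | hx
      · exact hcon.1 (Finset.mem_filter.1 hx).2
      · exact hcon.2 (Finset.mem_filter.1 hx).2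
    rw [Finset.card_insert_of_notMem hψ, Finset.card_union_of_disjoint hAB,
      NumberField.Embeddings.card, hg] at hcard
    omega

/-- The field of the square root of `-p` has no embedding in the field of `p`-adic numbers. -/
theorem isEmpty_kp (p : ℕ) [Fact p.Prime] : IsEmpty ((kp p).E →+* ℚ_[p]) := by
  refine ⟨fun φ0 => ?_⟩
  obtain ⟨φ⟩ : Nonempty (Kf p →+* ℚ_[p]) := ⟨φ0⟩
  have h := map_gen_sq p φ
  generalize φ (gen p) = x at h
  have h1 := congrArg norm h
  rw [norm_pow, norm_neg, Padic.norm_p] at h1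
  have hx : x ≠ 0 := by
    rintro rfl
    have h2 : ((p : ℕ) : ℚ_[p]) = 0 := by
      rw [← neg_eq_zero, ← h]
      ring
    exact (Nat.cast_ne_zero.2 (Fact.out : p.Prime).ne_zero) h2
  rw [Padic.norm_eq_zpow_neg_valuation hx] at h1
  have hp1 : (1 : ℝ) < p := by exact_mod_cast (Fact.out : p.Prime).one_lt
  have h3 : (p : ℝ) ^ (-x.valuation * 2) = (p : ℝ) ^ (-1 : ℤ) := by
    rw [zpow_mul, zpow_neg_one]
    exact_mod_cast h1
  have h4 := zpow_right_injective₀ (by linarith) hp1.ne' h3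
  omega

open Pool.Agent.U124.HQ in
theorem odd_inv_of_good {K : Type} [Field K] [NumberField K] [IsCMField K]
    (hK : finrank ℚ K = 2) {κ : K →+* ℂ} {Z : RedAV p ν} {i : Z.X.I} (hgood : GoodFactor κ Z i)
    {e : Emb Z → ℕ} (he : IsRel Z e) (σ : ℂ ≃+* ℂ) (hσ : ∀ x, σ (κ x) = κ x)
    (φ : (Z.X.factor i).E →+* ℂ) : oddE e (aE Z σ ⟨i, φ⟩) = oddE e ⟨i, φ⟩ := by
  rcases hgood with ⟨ι, hrel, hind⟩ | ⟨hneat, hind⟩
  · have key : ∀ ψ : (Z.X.factor i).E →+* ℂ, ψ.comp ι = κ →
        oddE e (aE Z σ ⟨i, ψ⟩) = oddE e ⟨i, ψ⟩ := fun ψ hψ =>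
      odd_over hrel hind he (actA κ ι σ hσ ⟨ψ, hψ⟩).2 hψ
    rcases Pool.Agent.Q29.OS.embedding_quadratic hK κ (φ.comp ι) with h | h
    · exact key φ h
    · have h1 : (ComplexEmbedding.conjugate φ).comp ι = κ := by
        rw [conj_comp, h, cc_emb]
      have h2 := key _ h1
      have h3 : (⟨i, ComplexEmbedding.conjugate φ⟩ : Emb Z) = conjE ⟨i, φ⟩ := rfl
      rw [h3, aE_conjE, oddE_conj, oddE_conj] at h2
      linarith
  · rw [aE_apply, odd_neat hneat hind he φ]
    exact odd_neat hneat hind he _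

open Pool.Agent.U124.HQ in
/-- Products of good factors have quadratic local relations. -/
theorem local_of_good {K : Type} [Field K] [NumberField K] [IsCMField K]
    (hK : finrank ℚ K = 2) (κ : K →+* ℂ) {Z : RedAV p ν} (hZ : ∀ i, IsGoodFactor κ Z i) :
    HasQuadraticLocalRelations κ Z := by
  intro e he hloc
  refine closure_of_inv κ e he fun w => ?_
  obtain ⟨i, φ⟩ := w
  by_cases hss : IsSupersingular Z i
  · exact Or.inl hss
  right
  intro σ hσ
  have hcase : (HasOnePair p ν (Z.X.factor i).E ∧ IsFreeFactor Z i) ∨ GoodFactor κ Z i := by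
    rcases (hZ i).resolve_left hss with ⟨h | h, hfree⟩ | ⟨ι, hkind, hind⟩
    · exact Or.inl ⟨h, hfree⟩
    · exact Or.inl ⟨(pair_of_slopes h).resolve_left hss, hfree⟩
    · right
      refine Or.inl ⟨ι, ?_, hind⟩
      rcases hkind with h | ⟨h, hπ⟩ | ⟨⟨g, hg, hdeg⟩, hπ⟩ | h
      · intro e _ _ φ ψ hφ hψ
        have h1 : φ = ψ := by
          ext x
          obtain ⟨y, rfl⟩ := h x
          exact (RingHom.congr_fun hφ y).trans (RingHom.congr_fun hψ y).symm
        rw [h1]
      · exact relationsOver_of_simple hK κ i ι (isSimple_of_two κ ι h) (Or.inr hπ)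
      · exact relationsOver_of_simple hK κ i ι (isSimple_of_prime κ ι hg (by rw [hK, hdeg]))
          (Or.inr hπ)
      · exact relationsOver_of_stm h
  rcases hcase with ⟨hpair, hfree⟩ | hgood
  · rw [aE_apply, odd_zero he hloc hss hpair hfree, odd_zero he hloc hss hpair hfree]
  · exact odd_inv_of_good hK hgood he σ hσ φ

variable {C : (Y : RedAV p ν) → (κ : Type) →
  ((TM (PadicAlgCl p) Y) [⋀^κ]→ₗ[PadicAlgCl p] (PadicAlgCl p)) → Prop}

/-- **The theorem for local relations.** -/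
theorem homEqNum_local (hC : IsCycleSystem (PadicAlgCl p) C) (hT : AreTate (PadicAlgCl p) C)
    (hQ : AreCrystalline (PadicAlgCl p) C) {K : Type} [Field K] [NumberField K]
    [IsCMField K] (hK : finrank ℚ K = 2) (hns : IsEmpty (K →+* ℚ_[p])) {κ0 : K →+* ℂ}
    {Z : RedAV p ν} (hrel : HasQuadraticLocalRelations κ0 Z)
    {Y : RedAV p ν} (hYZ : IsPowersTimesSupersingular Z Y) :
    HomEqNum (PadicAlgCl p) C Y := by
  classical
  intro r z hz hnum
  have hne : Nonempty (((Y.X.prod Z.X).prod (single (kp p))).prod (single (anyPair K))).I :=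
    ⟨Sum.inr ()⟩
  obtain ⟨L, _, _, _, _, j, hj⟩ :=
    exists_cm (((Y.X.prod Z.X).prod (single (kp p))).prod (single (anyPair K)))
  have hY : Big Y.X j := fun i ψ => hj (Sum.inl (Sum.inl (Sum.inl i))) ψ
  have hZ : Big Z.X j := fun i ψ => hj (Sum.inl (Sum.inl (Sum.inr i))) ψ
  have hkp : BigA (kp p) j := fun ψ => hj (Sum.inl (Sum.inr ())) ψ
  obtain ⟨κL, hκ⟩ : ∃ κL : K →+* L, j.comp κL = κ0 := hj (Sum.inr ()) κ0
  have hst : IsStable j ℚ_[p] (jP ν j) C := by
    intro Y hB κ _ _ s hs h g hg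
    exact galois_crys hC hQ hB hs h hg
  refine core_of_conj (jO := jP ν j) hC hkp hY (fun e h1 h0 s hs hsi ho => ?_) hz hnum
  refine conj_of_local hC hst hK hns hκ hZ hkp hrel hY hYZ hsi
    (sum_eq (jP ν j) hC hT hY e h1 h0 hz s hs) ?_ ho
  rw [Fintype.card_prod, Fintype.card_fin, Fintype.card_fin]
  exact even_two.mul_left r

/-- **The theorem.** -/
theorem homEqNum_good (hC : IsCycleSystem (PadicAlgCl p) C) (hT : AreTate (PadicAlgCl p) C)
    (hQ : AreCrystalline (PadicAlgCl p) C) {K : Type} [Field K] [NumberField K]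
    [IsCMField K] (hK : finrank ℚ K = 2) (hns : IsEmpty (K →+* ℚ_[p])) (κ : K →+* ℂ)
    {Z : RedAV p ν} (hZ : (∀ i, IsGoodFactor κ Z i) ∨ HasQuadraticLocalRelations κ Z)
    {Y : RedAV p ν} (hYZ : IsPowersTimesSupersingular Z Y) :
    HomEqNum (PadicAlgCl p) C Y :=
  homEqNum_local hC hT hQ hK hns (hZ.elim (local_of_good hK κ) id) hYZ

end

end Pool.Agent.U124.HC
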