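import Pool.Agent.U124.HC.Main
import Pool.Agent.U124.HL.Main

/-!
# Relations defined over an imaginary quadratic field in which the prime number does not split
-/

set_option autoImplicit false
set_option linter.unusedSectionVars false
set_option linter.unusedVariables false

namespace Pool.Agent.U124.HC

open NumberField Pool.Agent.H204R3.CM Pool.Agent.W547.KB Pool.Agent.W547.LD Pool.Agent.W547.HR
  Pool.Agent.W495.TA Module Pool.Agent.TH117.PO Pool.Agent.W976.TA Pool.Agent.W417.TA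
  Pool.Agent.TH117.BL Pool.Agent.W495.TC Pool.Agent.W495.TB Pool.Agent.TH117.F5
  Pool.Agent.N202.QR Pool.Agent.U124.HL Pool.Agent.U124.HD
open scoped TensorProduct

noncomputable section

variable {p : ℕ} [Fact p.Prime] {ν : PadicAlgCl p ≃+* ℂ}
variable {L : Type} [Field L] [NumberField L] [IsCMField L] [IsGalois ℚ L] {j : L →+* ℂ}
  {k : Type} [Field k] {Ω : Type} [Field Ω] [CharZero Ω] [Algebra k Ω] {jO : L →+* Ω}
  {C : (Y : RedAV p ν) → (κ : Type) → ((TM Ω Y) [⋀^κ]→ₗ[Ω] Ω) → Prop}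

/-- Division of words which occur. -/
theorem Occ.div (hC : IsCycleSystem Ω C) {Y Y' : RedAV p ν} (hY : Big Y.X j) {κ κ' : Type}
    [Fintype κ] [DecidableEq κ] [Fintype κ'] [DecidableEq κ'] {s : κ → Wt Y.X L}
    (hs : Function.Injective s) {J : κ' → Wt Y'.X L} (hJ : Function.Injective J)
    (h : Occ jO C Y s)
    (hK : Occ jO C (prodR Y' Y) (Sum.elim (fun k => inlW (J k)) fun k => inrW (bar (s k)))) :
    Occ jO C Y' J := by
  obtain ⟨c, c', hc, h1⟩ := h
  obtain ⟨d, d', hd, h2⟩ := hK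
  obtain ⟨δ, hδ, h3⟩ := line_div hC hY hs hJ h1 h2
  exact ⟨_, _, mul_ne_zero (mul_ne_zero hd hc) ((map_ne_zero jO).2 hδ), h3⟩

/-- Words of algebraic classes occur. -/
theorem Occ.of_alg [IsAlgClosed Ω] (hC : IsCycleSystem Ω C) {Y : RedAV p ν} (hB : Big Y.X j)
    {κ : Type} [Fintype κ] [DecidableEq κ] {I : κ → Wt Y.X L} (hI : Function.Injective I)
    (hA : Alg Ω Y κ (monoO jO I)) : Occ jO C Y I := by
  obtain ⟨b, b', μ, hb, hbb, hμ⟩ := pos_of_alg hC jO j hB hI hA
  refine ⟨b, b', ?_, hb⟩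
  intro h
  rw [h, zero_mul] at hbb
  have h1 : μ = 0 := jO.injective (by rw [← hbb, map_zero])
  have h2 := hμ.1
  rw [h1, map_zero, zero_mul] at h2
  exact h2 rfl

theorem injective_elim {Y Y' : RedAV p ν} {κ κ' : Type} {s : κ → Wt Y.X L}
    (hs : Function.Injective s) {J : κ' → Wt Y'.X L} (hJ : Function.Injective J) :
    Function.Injective (Sum.elim (fun k => inlW (J k)) fun k => inrW (s k) :
      κ' ⊕ κ → Wt (prodR Y' Y).X L) := by
  refine Function.Injective.sumElim ?_ ?_ ?_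
  · intro k k' hk
    refine hJ ?_
    have h5 := Sigma.mk.inj_iff.1 hk
    exact Sigma.ext (Sum.inl.inj h5.1) h5.2
  · intro k k' hk
    refine hs ?_
    have h5 := Sigma.mk.inj_iff.1 hk
    exact Sigma.ext (Sum.inr.inj h5.1) h5.2
  · intro k k' hk
    exact Sum.inl_ne_inr (Sigma.mk.inj_iff.1 hk).1

/-- The conjugate word occurs, if its relation is generated by elementary relations and by relations
defined over `K`. -/
theorem conj_of_rel [IsAlgClosed Ω] [Algebra.IsAlgebraic k Ω] [CharZero k]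
    (hC : IsCycleSystem Ω C) (hQ : IsStable j k jO C) {K : Type} [Field K] [NumberField K]
    [IsCMField K] (hK : finrank ℚ K = 2) (hns : IsEmpty (K →+* k)) {κ0 : K →+* ℂ}
    {κL : K →+* L} (hκ : j.comp κL = κ0)
    {Z : RedAV p ν} (hZ : Big Z.X j) (hkp : BigA (kp p) j)
    {Y : RedAV p ν} (hY : Big Y.X j)
    {κ : Type} [Fintype κ] [DecidableEq κ] {s : κ → Wt Y.X L} {w : κ → Option (Wt Z.X L)}
    (ho : ∀ i, tf p ν j (St j (s i)) = ext0 (tw p ν j Z.X) (w i))
    (hrel : ∀ e : Emb Z → ℕ, IsRel Z e →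
      (∀ v : Wt Z.X L, e (toEmb j Z v) = Nat.card {k // w k = some v}) →
      (fun w => (e w : ℤ)) ∈ AddSubgroup.closure {d : Emb Z → ℤ | ∃ n : Emb Z → ℕ, IsRel Z n ∧
        (IsElementary Z n ∨ IsInvariant κ0 Z n) ∧ ∀ w, d w = n w})
    (hs : Function.Injective s) (hbal : ∀ g, ∑ k, tf p ν j (St j (s k)) g = 0)
    (heven : Even (Fintype.card κ)) (h : Occ jO C Y s) : Occ jO C Y fun i => bar (s i) := by
  classical
  have hfin := Pool.Agent.W67.TA.finite_wt j hZ
  let _ : Fintype (Wt Z.X L) := Fintype.ofFinite _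
  obtain ⟨δ, d, hδ, hfix⟩ := exists_root j hK κL
  have hsum : ∀ g, ∑ k, ext0 (tw p ν j Z.X) (w k) g = 0 := by
    intro g
    rw [← hbal g]
    exact Finset.sum_congr rfl fun k _ => by rw [ho k]
  have hbij := toEmb_bijective (j := j) hZ
  let E : Wt Z.X L ≃ Emb Z := Equiv.ofBijective _ hbij
  let e : Emb Z → ℕ := fun u => Nat.card {k // w k = some (E.symm u)}
  have he' : ∀ v : Wt Z.X L, e (toEmb j Z v) = Nat.card {k // w k = some v} := by
    intro v
    have h1 : E.symm (toEmb j Z v) = v := E.symm_apply_apply v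
    change (Nat.card {k // w k = some (E.symm (toEmb j Z v))} : ℕ) = _
    rw [h1]
  have he : ∀ v : Wt Z.X L, (e (toEmb j Z v) : ℤ) = Pool.Agent.TH117.BL.cnt w v := by
    intro v
    rw [he']
    rfl
  have h1 : IsRel Z e := by
    rw [isRel_iff hZ]
    intro σ
    rw [← hsum σ, sum_eq_cnt]
    exact Finset.sum_congr rfl fun v _ => by rw [he]
  obtain ⟨n, hn, hnrel, hG⟩ := rel_decomp jO hZ hkp hκ _ (hrel e h1 he')
  obtain ⟨h', Y', hY', J, hJ, hJbal, hJN, hJt⟩ := exists_J hδ hZ n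
    (fun σ hσ => hn σ (hfix σ hσ)) hnrel
  have h3 : (fun l : Wt Z.X L => ((e (toEmb j Z l) : ℕ) : ℤ)) = Pool.Agent.TH117.BL.cnt w :=
    funext he
  have hG' : GenD (AlgM p ν j jO) (Set.range (ext0 (tw p ν j Z.X)))
      (DD (tw p ν j Z.X) (Pool.Agent.TH117.BL.cnt w) -
        DD (tw p ν j Z.X) (Pool.Agent.TH117.BL.cnt (fl' n h'))) := by
    rw [cnt_fl', ← h3]
    exact hG
  have hA := alg_K jO hkp hY hY' ho heven hJt (even_of_bal hJbal) hG'
  have hs' : Function.Injective fun k => bar (s k) := fun k k' hk => hs (bar_injective hk)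
  have hKo : Occ jO C (prodR Y' Y) (Sum.elim (fun k => inlW (J k)) fun k => inrW (bar (s k))) :=
    Occ.of_alg hC (big_prodR hY' hY) (injective_elim hs' hJ) hA
  -- the word `J` occurs
  have hJo : Occ jO C Y' J := Occ.div hC hY hs hJ h hKo
  -- the conjugate of the word `J` occurs
  obtain ⟨σ, g, hσ, x, hx⟩ := exists_aut (Ω := Ω) hns κL jO
  have hg : g δ ≠ δ := fun h => hx (hfix g h x)
  have hg' : (cc L * g) δ = δ := by
    rcases hδ.conj_or g with h6 | h6
    · exact absurd h6 hg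
    · change cc L (g δ) = δ
      rw [h6, map_neg, hδ.cj j, neg_neg]
  obtain ⟨π, hπ⟩ := hJN (cc L * g) hg'
  have hJg : Occ jO C Y' fun i => sw g (J i) := hQ hY' hJ hJo ⟨σ, hσ⟩
  have hJb : Occ jO C Y' fun i => bar (J i) := by
    refine Occ.reindex hC π (fun i => ?_) hJg
    have h8 : sw g (J i) = bar (J (π i)) := by
      rw [← hπ i, sw_cc, bar_bar]
    exact h8.symm
  -- division
  have hJ' : Function.Injective fun k => bar (J k) := fun k k' hk => hJ (bar_injective hk)
  refine Occ.div hC hY' hJ' hs' hJb ?_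
  refine Occ.reindex hC (Equiv.sumComm _ _) (s := Sum.elim (fun k => inrW (J k))
    fun k => inlW (bar (s k))) ?_ ?_
  · rintro (i | i)
    · change inrW (bar (bar (J i))) = inrW (J i)
      rw [bar_bar]
    · rfl
  · refine Occ.types hC j (injective_elim hs' hJ) ?_ hKo
    rintro (i | i)
    · rfl
    · rfl

end

end Pool.Agent.U124.HC
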