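import Pool.Agent.U124.HC.KType

/-!
# Relations whose exponents depend only on the `p`-adic places
-/

set_option autoImplicit false
set_option linter.unusedSectionVars false
set_option linter.unusedVariables false

namespace Pool.Agent.U124.HC

open NumberField Pool.Agent.H204R3.CM Pool.Agent.W547.KB Pool.Agent.W547.LD Pool.Agent.W547.HR
  Pool.Agent.W495.TA Module Pool.Agent.TH117.PO Pool.Agent.W976.TA Pool.Agent.W417.TA
  Pool.Agent.TH117.BL Pool.Agent.W495.TC Pool.Agent.W495.TB Pool.Agent.TH117.F5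
  Pool.Agent.N202.QR Pool.Agent.U124.HL Pool.Agent.U124.HD
open scoped TensorProduct

noncomputable section

variable {p : ℕ} [Fact p.Prime] {ν : PadicAlgCl p ≃+* ℂ}

variable {L : Type} [Field L] [NumberField L] [IsCMField L] [IsGalois ℚ L] {j : L →+* ℂ}

section gen

variable {Ω : Type} [Field Ω] [CharZero Ω] {jO : L →+* Ω}
  {C : (Y : RedAV p ν) → (κ : Type) → ((TM Ω Y) [⋀^κ]→ₗ[Ω] Ω) → Prop}

/-- Only the functions matter. -/
theorem Occ.of_ty [IsAlgClosed Ω] (hC : IsCycleSystem Ω C) (hkp : BigA (kp p) j)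
    {Y Y' : RedAV p ν} (hY : Big Y.X j) (hY' : Big Y'.X j) {κ κ' : Type} [Fintype κ]
    [DecidableEq κ] [Fintype κ'] [DecidableEq κ'] {s : κ → Wt Y.X L}
    (hs : Function.Injective s) {t : κ' → Wt Y'.X L} (ht : Function.Injective t) (ε : κ ≃ κ')
    (hst : ∀ i, ty ν j (t (ε i)) = ty ν j (s i)) (h : Occ jO C Y s) : Occ jO C Y' t := by
  refine Occ.transfer hC hkp hY hY' hs ht ?_ (fun f => ?_) h
  · rw [← Fintype.card_congr ε]
    exact Even.add_self _
  · let E : κ' ⊕ κ ≃ κ' ⊕ κ :=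
      { toFun := fun x => Sum.elim (fun i => Sum.inr (ε.symm i)) (fun i => Sum.inl (ε i)) x
        invFun := fun x => Sum.elim (fun i => Sum.inr (ε.symm i)) (fun i => Sum.inl (ε i)) x
        left_inv := by
          rintro (i | i)
          · exact congrArg Sum.inl (ε.apply_symm_apply i)
          · exact congrArg Sum.inr (ε.symm_apply_apply i)
        right_inv := by
          rintro (i | i)
          · exact congrArg Sum.inl (ε.apply_symm_apply i)
          · exact congrArg Sum.inr (ε.symm_apply_apply i) }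
    refine Nat.card_congr (Equiv.subtypeEquiv E fun x => ?_)
    rcases x with i | i
    · change ty ν j (t i) = f ↔ -ty ν j (s (ε.symm i)) = -f
      rw [← hst, ε.apply_symm_apply, neg_inj]
    · change -ty ν j (s i) = f ↔ ty ν j (t (ε i)) = -f
      rw [hst, neg_eq_iff_eq_neg]

end gen

variable (ν j) in
/-- The embedding in the algebraic closure of `ℚ_p`. -/
def jP : L →+* PadicAlgCl p := (ν.symm : ℂ →+* PadicAlgCl p).comp j

variable {C : (Y : RedAV p ν) → (κ : Type) →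
  ((TM (PadicAlgCl p) Y) [⋀^κ]→ₗ[PadicAlgCl p] (PadicAlgCl p)) → Prop}

/-- The conjugate word occurs. -/
theorem conj_of_local (hC : IsCycleSystem (PadicAlgCl p) C)
    (hQ : IsStable j ℚ_[p] (jP ν j) C) {K : Type} [Field K] [NumberField K]
    [IsCMField K] (hK : finrank ℚ K = 2) (hns : IsEmpty (K →+* ℚ_[p])) {κ0 : K →+* ℂ}
    {κL : K →+* L} (hκ : j.comp κL = κ0)
    {Z : RedAV p ν} (hZ : Big Z.X j) (hkp : BigA (kp p) j)
    (hrel : HasQuadraticLocalRelations κ0 Z)
    {Y : RedAV p ν} (hY : Big Y.X j) (hYZ : IsPowersTimesSupersingular Z Y)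
    {κ : Type} [Fintype κ] [DecidableEq κ] {s : κ → Wt Y.X L}
    (hs : Function.Injective s) (hbal : ∀ g, ∑ k, ty ν j (s k) g = 0)
    (heven : Even (Fintype.card κ)) (h : Occ (jP ν j) C Y s) :
    Occ (jP ν j) C Y fun i => bar (s i) := by
  classical
  have hfin : Finite (L ≃ₐ[ℚ] L) := inferInstance
  let D := Dk ℚ_[p] (jP ν j)
  let T := {g : D // g ≠ 1}
  let _ : Fintype D := Fintype.ofFinite _
  let _ : Fintype T := Fintype.ofFinite _
  have hocc : ∀ g : D, OccT j (jP ν j) C κ fun i => ty ν j (sw g.1 (s i)) := fun g =>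
    ⟨inferInstance, inferInstance, Y, hY, fun i => sw g.1 (s i),
      fun i i' hi => hs (sw_inj _ hi), fun i => rfl, hQ hY hs h g.2⟩
  obtain ⟨Y1, hY1, s1, hs1, hst1, h1⟩ := (OccT.sumF hC hY _ hocc).out
  obtain ⟨Y2, hY2, s2, hs2, hst2, h2⟩ := (OccT.sumF hC hY _ fun g : T => hocc g.1).out
  choose o ho using fun w => weight_cases hY hZ hYZ w
  let w1 : D × κ → Option (Wt Z.X L) := fun x => (o (s x.2)).map (sw x.1.1)
  have htw : ∀ (g : L ≃ₐ[ℚ] L) (v : Wt Z.X L) (σ : L ≃ₐ[ℚ] L),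
      tw p ν j Z.X (sw g v) σ = tw p ν j Z.X v (σ * g) := by
    intro g v σ
    have e1 : ∀ v : Wt Z.X L, tw p ν j Z.X v = ty ν j v := fun v => (tf_nn Z.X v.1 v.2).symm
    rw [e1, e1]
    exact ty_sw g v σ
  have ho1 : ∀ x, tf p ν j (St j (s1 x)) = ext0 (tw p ν j Z.X) (w1 x) := by
    intro x
    have e1 : tf p ν j (St j (s1 x)) = ty ν j (sw x.1.1 (s x.2)) := hst1 x
    rw [e1]
    funext σ
    rw [ty_sw]
    have e2 : ty ν j (s x.2) = ext0 (tw p ν j Z.X) (o (s x.2)) := ho (s x.2)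
    rw [e2]
    change ext0 (tw p ν j Z.X) (o (s x.2)) (σ * x.1.1) =
      ext0 (tw p ν j Z.X) ((o (s x.2)).map (sw x.1.1)) σ
    rcases o (s x.2) with _ | v
    · rfl
    · exact (htw x.1.1 v σ).symm
  have hbal1 : ∀ g, ∑ x, tf p ν j (St j (s1 x)) g = 0 := by
    intro g
    have e1 : ∀ x : D × κ, tf p ν j (St j (s1 x)) g = ty ν j (s x.2) (g * x.1.1) := by
      intro x
      have e2 : tf p ν j (St j (s1 x)) = ty ν j (sw x.1.1 (s x.2)) := hst1 x
      rw [e2, ty_sw]
    rw [Finset.sum_congr rfl fun x _ => e1 x, Fintype.sum_prod_type]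
    exact Finset.sum_eq_zero fun g' _ => hbal (g * g'.1)
  have heven1 : Even (Fintype.card (D × κ)) := by
    rw [Fintype.card_prod]
    exact heven.mul_left _
  have hrel1 : ∀ e : Emb Z → ℕ, IsRel Z e →
      (∀ v : Wt Z.X L, e (toEmb j Z v) = Nat.card {k // w1 k = some v}) →
      (fun w => (e w : ℤ)) ∈ AddSubgroup.closure {d : Emb Z → ℤ | ∃ n : Emb Z → ℕ, IsRel Z n ∧
        (IsElementary Z n ∨ IsInvariant κ0 Z n) ∧ ∀ w, d w = n w} := by
    intro e he hcnt
    have hmono : {d : Emb Z → ℤ | ∃ n : Emb Z → ℕ, IsRel Z n ∧ (∑ w, n w ≤ 2 ∨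
        IsInvariant κ0 Z n) ∧ ∀ w, d w = n w} ⊆ {d : Emb Z → ℤ | ∃ n : Emb Z → ℕ, IsRel Z n ∧
        (IsElementary Z n ∨ IsInvariant κ0 Z n) ∧ ∀ w, d w = n w} := by
      rintro d ⟨n, h1, h2, h3⟩
      exact ⟨n, h1, h2.imp Or.inl id, h3⟩
    refine AddSubgroup.closure_mono hmono (hrel e he fun i φ φ' hφ => ?_)
    obtain ⟨τ, hτ⟩ := hφ
    obtain ⟨ψ, hψ⟩ := hZ i φ
    obtain ⟨g, hg⟩ := exists_restrict (k := ℚ_[p]) τ (jP ν j)
    have e1 : (⟨i, φ⟩ : Emb Z) = toEmb j Z ⟨i, ψ⟩ := by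
      rw [← hψ]
      rfl
    have e2 : (⟨i, φ'⟩ : Emb Z) = toEmb j Z (sw g ⟨i, ψ⟩) := by
      refine Sigma.ext rfl (heq_of_eq ?_)
      ext x
      have e3 : φ x = j (ψ x) := by
        rw [← hψ]
        rfl
      have e4 : τ (ν.symm (j (ψ x))) = ν.symm (j (g (ψ x))) := hg (ψ x)
      change φ' x = j (g (ψ x))
      rw [hτ x, e3, e4, RingEquiv.apply_symm_apply]
    rw [e1, e2, hcnt, hcnt]
    let gD : D := ⟨g, τ, hg⟩
    refine Nat.card_congr (Equiv.subtypeEquiv
      (Equiv.prodCongr (Equiv.mulLeft gD) (Equiv.refl κ)) fun x => ?_)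
    change (o (s x.2)).map (sw x.1.1) = some ⟨i, ψ⟩ ↔
      (o (s x.2)).map (sw (g * x.1.1)) = some (sw g ⟨i, ψ⟩)
    rcases o (s x.2) with _ | v
    · simp
    · have e5 : sw (g * x.1.1) v = sw g (sw x.1.1 v) := rfl
      rw [Option.map_some, Option.map_some, Option.some_inj, Option.some_inj, e5]
      exact (sw_inj g).eq_iff.symm
  have h3 : Occ (jP ν j) C Y1 fun x => bar (s1 x) :=
    conj_of_rel hC hQ hK hns hκ hZ hkp hY1 ho1 hrel1 hs1 hbal1 heven1 h1
  have hsb : Function.Injective fun i => bar (s i) := fun i i' hi => hs (bar_injective hi)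
  have hsb1 : Function.Injective fun i => bar (s1 i) := fun i i' hi => hs1 (bar_injective hi)
  have hsb2 : Function.Injective fun i => bar (s2 i) := fun i i' hi => hs2 (bar_injective hi)
  refine Occ.div hC hY2 hs2 hsb h2 ?_
  let E : D × κ ≃ κ ⊕ (T × κ) :=
    { toFun := fun x => if hx : x.1 = 1 then Sum.inl x.2 else Sum.inr (⟨x.1, hx⟩, x.2)
      invFun := fun x => match x with
        | Sum.inl i => (1, i)
        | Sum.inr y => (y.1.1, y.2)
      left_inv := by
        rintro ⟨g, i⟩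
        by_cases hg : g = 1
        · simp [hg]
        · simp [hg]
      right_inv := by
        rintro (i | ⟨⟨g, hg⟩, i⟩)
        · simp
        · simp [hg] }
  refine Occ.of_ty hC hkp hY1 (big_prodR hY hY2) hsb1 (injective_elim hsb2 hsb) E ?_ h3
  have hE : ∀ x : κ ⊕ (T × κ), ty ν j (Sum.elim (fun i => inlW (bar (s i)))
      (fun i => inrW (bar (s2 i))) x : Wt (prodR Y Y2).X L) =
      ty ν j (bar (s1 (E.symm x))) := by
    rintro (i | y)
    · change ty ν j (bar (s i)) = ty ν j (bar (s1 (1, i)))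
      rw [ty_bar, ty_bar, hst1]
      rfl
    · change ty ν j (bar (s2 y)) = ty ν j (bar (s1 (y.1.1, y.2)))
      rw [ty_bar, ty_bar, hst1, hst2]
  intro x
  rw [hE, E.symm_apply_apply]

end

end Pool.Agent.U124.HC
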