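import Pool.Agent.U124.HC.Sym

/-!
# Crystalline homological and numerical equivalence on abelian varieties over finite fields
-/

set_option autoImplicit false
set_option linter.unusedSectionVars false
set_option linter.unusedVariables false

namespace Pool.Agent.U124.HC

open NumberField Pool.Agent.H204R3.CM Pool.Agent.W547.KB Pool.Agent.W547.LD Pool.Agent.W547.HR
  Pool.Agent.W495.TA Module Pool.Agent.TH117.PO Pool.Agent.W976.TA Pool.Agent.W417.TA
  Pool.Agent.TH117.BL Pool.Agent.W495.TC Pool.Agent.W495.TB Pool.Agent.TH117.F5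
  Pool.Agent.N202.QR Pool.Agent.U124.HL Pool.Agent.U124.HD
open scoped TensorProduct

noncomputable section

variable {p : ℕ} [Fact p.Prime] {ν : PadicAlgCl p ≃+* ℂ}
variable {L : Type} [Field L] [NumberField L] [IsCMField L] [IsGalois ℚ L] {j : L →+* ℂ}
  {k : Type} [Field k] {Ω : Type} [Field Ω] [CharZero Ω] [Algebra k Ω] {jO : L →+* Ω}
  {C : (Y : RedAV p ν) → (κ : Type) → ((TM Ω Y) [⋀^κ]→ₗ[Ω] Ω) → Prop}

variable (k j jO C) in
/-- The words which occur are permuted by the decomposition group. -/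
def IsStable : Prop :=
  ∀ {Y : RedAV p ν} (_ : Big Y.X j) {κ : Type} [Fintype κ] [DecidableEq κ] {s : κ → Wt Y.X L}
    (_ : Function.Injective s) (_ : Occ jO C Y s) {g : L ≃ₐ[ℚ] L} (_ : g ∈ Dk k jO),
    Occ jO C Y fun i => sw g (s i)

/-- The conjugate word occurs, if the sum over the decomposition group vanishes. -/
theorem conj_of_stable [IsAlgClosed Ω] (hC : IsCycleSystem Ω C) (hQ : IsStable j k jO C)
    (hkp : BigA (kp p) j) {Y : RedAV p ν} (hB : Big Y.X j) {κ : Type} [Fintype κ]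
    [DecidableEq κ] {s : κ → Wt Y.X L} (hs : Function.Injective s)
    (heven : Even (Fintype.card κ))
    (hd : ∀ f : (L ≃ₐ[ℚ] L) → ℤ,
      Nat.card {x : Dk k jO × κ // ty ν j (sw x.1.1 (s x.2)) = f} =
      Nat.card {x : Dk k jO × κ // ty ν j (sw x.1.1 (s x.2)) = -f})
    (h : Occ jO C Y s) : Occ jO C Y fun i => bar (s i) := by
  classical
  have hfin : Finite (L ≃ₐ[ℚ] L) := inferInstance
  let T := {g : Dk k jO // g ≠ 1}
  have hT : Finite T := inferInstance
  let _ : Fintype (Dk k jO) := Fintype.ofFinite _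
  let _ : Fintype T := Fintype.ofFinite _
  have h1 : ∀ g : T, OccT j jO C κ fun i => ty ν j (sw g.1.1 (s i)) := fun g =>
    ⟨inferInstance, inferInstance, Y, hB, fun i => sw g.1.1 (s i),
      fun i i' hi => hs (sw_inj _ hi), fun i => rfl, hQ hB hs h g.1.2⟩
  obtain ⟨Y', hY', s', hs', hst', h2⟩ := (OccT.sumF hC hB _ h1).out
  have hsb : Function.Injective fun i => bar (s i) := fun i i' hi => hs (bar_injective hi)
  let E : κ ⊕ (T × κ) ≃ Dk k jO × κ :=
    { toFun := fun x => match x with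
        | Sum.inl i => (1, i)
        | Sum.inr y => (y.1.1, y.2)
      invFun := fun x => if hx : x.1 = 1 then Sum.inl x.2 else Sum.inr (⟨x.1, hx⟩, x.2)
      left_inv := by
        rintro (i | ⟨⟨g, hg⟩, i⟩)
        · simp
        · simp [hg]
      right_inv := by
        rintro ⟨g, i⟩
        by_cases hg : g = 1
        · simp [hg]
        · simp [hg] }
  have hE : ∀ x : κ ⊕ (T × κ), Sum.elim (fun i => ty ν j (bar (s i)))
      (fun i => -ty ν j (s' i)) x = -ty ν j (sw (E x).1.1 (s (E x).2)) := by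
    rintro (i | y)
    · change tf p ν j (St j (bar (s i))) = -ty ν j (sw 1 (s i))
      rw [tf_bar]
      rfl
    · change -ty ν j (s' y) = -ty ν j (sw y.1.1.1 (s y.2))
      rw [hst']
  have hcnt : ∀ f : (L ≃ₐ[ℚ] L) → ℤ, Nat.card {x : κ ⊕ (T × κ) //
      Sum.elim (fun i => ty ν j (bar (s i))) (fun i => -ty ν j (s' i)) x = f} =
      Nat.card {x : Dk k jO × κ // ty ν j (sw x.1.1 (s x.2)) = -f} := by
    intro f
    refine Nat.card_congr (Equiv.subtypeEquiv E fun x => ?_)
    rw [hE, neg_eq_iff_eq_neg]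
  have hcard : Fintype.card κ + Fintype.card (T × κ) = Fintype.card (Dk k jO × κ) := by
    rw [← Fintype.card_sum]
    exact Fintype.card_congr E
  refine Occ.transfer hC hkp hY' hB hs' hsb ?_ (fun f => ?_) h2
  · rw [hcard, Fintype.card_prod]
    exact heven.mul_left _
  · rw [hcnt, hcnt, neg_neg]
    exact (hd f).symm

/-- **Homological and numerical equivalence**, if the conjugates of the occurring words occur. -/
theorem core_of_conj [IsAlgClosed Ω] (hC : IsCycleSystem Ω C)
    (hkp : BigA (kp p) j) {Y : RedAV p ν} (hB : Big Y.X j)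
    {κ : Type} [Fintype κ] [DecidableEq κ]
    {z : (TM Ω Y) [⋀^κ]→ₗ[Ω] Ω}
    (hconj : ∀ (e : Basis (Wt Y.X L) Ω (TM Ω Y)), (∀ w, co jO w (e w) = 1) →
      (∀ w w', w ≠ w' → co jO w (e w') = 0) → ∀ s : κ → Wt Y.X L, (z fun k => e (s k)) ≠ 0 →
      Function.Injective s → Occ jO C Y s → Occ jO C Y fun i => bar (s i))
    (hz : C Y κ z) (hnum : IsNumTrivial Ω C z) : z = 0 := by
  classical
  obtain ⟨e, h1, h0⟩ := Pool.Agent.W67.TA.basis p ν Ω L j jO Y hB
  have : Finite (Wt Y.X L) := Pool.Agent.W67.TA.finite_wt j hB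
  let _ : Fintype (Wt Y.X L) := Fintype.ofFinite _
  by_contra hz0
  obtain ⟨s, hs⟩ : ∃ s : κ → Wt Y.X L, (z fun k => e (s k)) ≠ 0 := by
    by_contra hcon
    push Not at hcon
    exact hz0 (Basis.ext_alternating e fun v _ => hcon v)
  have hsi : Function.Injective s := by
    intro k k' hk
    by_contra hne
    refine hs (z.map_eq_zero_of_eq _ ?_ hne)
    rw [hk]
  have h2 : Occ jO C Y s := ⟨_, _, hs, Ln_coef hC j hB e h1 h0 hz hsi⟩
  have h3 := hconj e h1 h0 s hs hsi h2
  have hsb : Function.Injective fun i => bar (s i) := fun i i' hi => hsi (bar_injective hi)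
  let κ' := {w : Wt Y.X L // w ∉ Set.range s}
  let t : κ' → Wt Y.X L := fun w => w.1
  have hb : Function.Bijective (Sum.elim s t) := by
    constructor
    · refine Function.Injective.sumElim hsi Subtype.val_injective fun k w h => ?_
      exact w.2 ⟨k, h⟩
    · intro w
      by_cases hw : w ∈ Set.range s
      · obtain ⟨k, hk⟩ := hw
        exact ⟨Sum.inl k, hk⟩
      · exact ⟨Sum.inr ⟨w, hw⟩, rfl⟩
  let E : κ' ⊕ κ ≃ Wt Y.X L := (Equiv.sumComm κ' κ).trans (Equiv.ofBijective _ hb)
  have hE : ∀ x, Sum.elim (fun i => ty ν j (t i)) (fun i => -ty ν j (bar (s i))) x =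
      ty ν j (E x) := by
    rintro (i | i)
    · rfl
    · change -ty ν j (bar (s i)) = ty ν j (s i)
      rw [ty_bar, neg_neg]
  have hcnt : ∀ f, Nat.card {x : κ' ⊕ κ //
      Sum.elim (fun i => ty ν j (t i)) (fun i => -ty ν j (bar (s i))) x = f} =
      Nat.card {w : Wt Y.X L // ty ν j w = f} := fun f =>
    Nat.card_congr (Equiv.subtypeEquiv E fun x => by rw [hE])
  have h4 : Occ jO C Y t := by
    refine Occ.transfer hC hkp hB hB hsb Subtype.val_injective ?_ (fun f => ?_) h3
    · rw [← Fintype.card_sum, Fintype.card_congr E]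
      exact even_wt j
    · rw [hcnt, hcnt]
      refine Nat.card_congr (Equiv.subtypeEquiv (Function.Involutive.toPerm bar bar_bar) fun w => ?_)
      change _ ↔ ty ν j (bar w) = -f
      rw [ty_bar, neg_inj]
  exact not_numTrivial hB e h1 h0 hb hs h4 hnum

/-- **The theorem in crystalline cohomology.** -/
theorem homEqNum_crys {Ω : Type} [Field Ω] [CharZero Ω] [Algebra ℚ_[p] Ω] [IsAlgClosed Ω]
    {C : (Y : RedAV p ν) → (κ : Type) → ((TM Ω Y) [⋀^κ]→ₗ[Ω] Ω) → Prop}
    (hC : IsCycleSystem Ω C) (hT : AreTate Ω C)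
    (hQ : AreCrystalline Ω C) {Y : RedAV p ν} (hY : NoInvariantRelation ℚ_[p] Ω Y) :
    HomEqNum Ω C Y := by
  classical
  intro r z hz hnum
  have hne : Nonempty (Y.X.prod (single (kp p))).I := ⟨Sum.inr ()⟩
  obtain ⟨L, _, _, _, _, j, hj⟩ := exists_cm (Y.X.prod (single (kp p)))
  have hB : Big Y.X j := fun i ψ => hj (Sum.inl i) ψ
  have hkp : BigA (kp p) j := fun ψ => hj (Sum.inr ()) ψ
  let jO : L →+* Ω := ((IsAlgClosed.lift : L →ₐ[ℚ] Ω) : L →+* Ω)
  have hst : IsStable j ℚ_[p] jO C := by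
    intro Y hB κ _ _ s hs h g hg
    exact galois_crys hC hQ hB hs h hg
  refine core_of_conj (jO := jO) hC hkp hB (fun e h1 h0 s hs hsi ho => ?_) hz hnum
  refine conj_of_stable hC hst hkp hB hsi ?_
    (card_of_noInv hB s (sum_eq jO hC hT hB e h1 h0 hz s hs) hY) ho
  rw [Fintype.card_prod, Fintype.card_fin, Fintype.card_fin]
  exact even_two.mul_left r

end

end Pool.Agent.U124.HC
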