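import Pool.Agent.U124.HC.Local

/-!
# CM fields with only one pair of different complex conjugate places above `p`
-/

set_option autoImplicit false
set_option linter.unusedSectionVars false
set_option linter.unusedVariables false

namespace Pool.Agent.U124.HC

open NumberField Pool.Agent.H204R3.CM Pool.Agent.W547.KB Pool.Agent.W547.LD Pool.Agent.W547.HR
  Pool.Agent.W495.TA Module Pool.Agent.TH117.PO Pool.Agent.W976.TA Pool.Agent.W417.TA
  Pool.Agent.TH117.BL Pool.Agent.W495.TC Pool.Agent.W495.TB Pool.Agent.TH117.F5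
  Pool.Agent.N202.QR Pool.Agent.U124.HL Pool.Agent.U124.HD
open scoped TensorProduct

noncomputable section

variable {p : ℕ} [Fact p.Prime] {ν : PadicAlgCl p ≃+* ℂ}

section place

variable {E : Type} [Field E] [NumberField E] [IsCMField E]

theorem SamePlace.refl (φ : E →+* ℂ) : SamePlace p ν φ φ :=
  ⟨AlgEquiv.refl, fun x => (ν.apply_symm_apply _).symm⟩

theorem conj_apply (φ : E →+* ℂ) (x : E) :
    ComplexEmbedding.conjugate φ x = φ (IsCMField.complexConj E x) :=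
  (IsCMField.complexEmbedding_complexConj E φ x).symm

theorem SamePlace.conj {φ ψ : E →+* ℂ} (h : SamePlace p ν φ ψ) :
    SamePlace p ν (ComplexEmbedding.conjugate φ) (ComplexEmbedding.conjugate ψ) := by
  obtain ⟨τ, hτ⟩ := h
  refine ⟨τ, fun x => ?_⟩
  rw [conj_apply, conj_apply, hτ]

theorem SamePlace.norm {φ ψ : E →+* ℂ} (h : SamePlace p ν φ ψ) (x : E) :
    ‖ν.symm (ψ x)‖ = ‖ν.symm (φ x)‖ := by
  obtain ⟨τ, hτ⟩ := h
  rw [hτ, RingEquiv.symm_apply_apply, Pool.Agent.W902.TB.norm_alg]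

end place

/-- A factor with all slopes `1 / 2` is supersingular. -/
theorem ss_of_norm {Z : RedAV p ν} (i : Z.X.I)
    (h : ∀ φ : (Z.X.factor i).E →+* ℂ, ‖ν.symm (φ (Z.π i))‖ ^ 2 = ‖(p : PadicAlgCl p)‖ ^ Z.a) :
    IsSupersingular Z i := by
  classical
  have hne : Nonempty Z.X.I := ⟨i⟩
  obtain ⟨L, _, _, _, _, j, hj⟩ := exists_cm Z.X
  have hZ : Big Z.X j := fun i ψ => hj i ψ
  obtain ⟨φ0⟩ : Nonempty ((Z.X.factor i).E →+* ℂ) := inferInstance
  obtain ⟨ψ, hψ⟩ := hZ i φ0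
  have h0 : ∀ σ : L ≃ₐ[ℚ] L, ty ν j (⟨i, ψ⟩ : Wt Z.X L) σ = 0 := by
    intro σ
    have h1 := norm_pow_two_card hZ (⟨i, ψ⟩ : Wt Z.X L) σ
    have hty : tw p ν j Z.X (⟨i, ψ⟩ : Wt Z.X L) σ = ty ν j (⟨i, ψ⟩ : Wt Z.X L) σ :=
      (congrFun (tf_nn Z.X i ψ) σ).symm
    rw [hty] at h1
    have h2 := h ((j.comp (σ : L →+* L)).comp ψ)
    have h3 : ‖ν.symm (j (σ (ψ (Z.π i))))‖ ^ 2 = ‖(p : PadicAlgCl p)‖ ^ Z.a := h2
    have h4 : ‖ν.symm (j (σ (ψ (Z.π i))))‖ ^ (2 * (Nat.card (Dec p ν j) : ℤ)) =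
        ‖(p : PadicAlgCl p)‖ ^ ((Z.a : ℤ) * (Nat.card (Dec p ν j) : ℤ)) := by
      have e1 : ‖ν.symm (j (σ (ψ (Z.π i))))‖ ^ (2 : ℤ) = ‖(p : PadicAlgCl p)‖ ^ (Z.a : ℤ) := by
        exact_mod_cast h3
      rw [zpow_mul, zpow_mul, e1]
    have h5 : ‖(p : PadicAlgCl p)‖ ^ ((Z.a : ℤ) * (Nat.card (Dec p ν j) : ℤ)) =
        ‖(p : PadicAlgCl p)‖ ^ ((Z.a : ℤ) * ((Nat.card (Dec p ν j) : ℤ) +
          ty ν j (⟨i, ψ⟩ : Wt Z.X L) σ)) := by
      rw [← h4]
      exact h1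
    have h6 := zpow_inj h5
    have ha : (Z.a : ℤ) ≠ 0 := by exact_mod_cast Z.pos.ne'
    have h7 : (Z.a : ℤ) * ty ν j (⟨i, ψ⟩ : Wt Z.X L) σ = 0 := by linarith
    exact (mul_eq_zero.1 h7).resolve_left ha
  obtain ⟨s, hs, h8⟩ := prod_eq hZ (fun _ : Unit => (⟨i, ψ⟩ : Wt Z.X L)) fun σ => by
    rw [Fintype.sum_unique]
    exact h0 σ
  refine ⟨s, hs, ψ.injective ?_⟩
  rw [Fintype.prod_unique, Fintype.card_unique, mul_one] at h8
  rw [map_pow, h8, map_pow, map_pow, map_natCast]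

open Classical in
/-- Symmetric exponents. -/
theorem sym_mem2 {Z : RedAV p ν} (S : Set (Emb Z → ℤ))
    (hS : ∀ n : Emb Z → ℕ, IsRel Z n → ∑ w, n w ≤ 2 → (fun w => (n w : ℤ)) ∈ S)
    (f : Emb Z → ℕ) (hf : ∀ w, f (conjE w) = f w) :
    (fun w => (f w : ℤ)) ∈ AddSubgroup.closure S := by
  let n : Emb Z → Emb Z → ℕ := fun w x => (if x = w then 1 else 0) + if x = conjE w then 1 else 0
  have hn : ∀ w, (fun x => (n w x : ℤ)) ∈ S := by
    intro w
    have hsum : ∑ x, n w x = 2 := by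
      change ∑ x, ((if x = w then 1 else 0) + if x = conjE w then 1 else 0) = 2
      rw [Finset.sum_add_distrib, Finset.sum_ite_eq' Finset.univ w fun _ => 1,
        Finset.sum_ite_eq' Finset.univ (conjE w) fun _ => 1, if_pos (Finset.mem_univ _),
        if_pos (Finset.mem_univ _)]
    refine hS (n w) ⟨1, one_pos, ?_⟩ hsum.le
    have hprod : ∏ x : Emb Z, eig Z x ^ n w x = eig Z w * eig Z (conjE w) := by
      have e1 : ∀ x : Emb Z, eig Z x ^ n w x =
          (if x = w then eig Z x else 1) * if x = conjE w then eig Z x else 1 := by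
        intro x
        change eig Z x ^ ((if x = w then 1 else 0) + if x = conjE w then 1 else 0) = _
        rw [pow_add]
        congr 1
        · split_ifs
          · rw [pow_one]
          · rw [pow_zero]
        · split_ifs
          · rw [pow_one]
          · rw [pow_zero]
      rw [Finset.prod_congr rfl fun x _ => e1 x, Finset.prod_mul_distrib,
        Finset.prod_ite_eq' Finset.univ w fun x => eig Z x,
        Finset.prod_ite_eq' Finset.univ (conjE w) fun x => eig Z x,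
        if_pos (Finset.mem_univ _), if_pos (Finset.mem_univ _)]
    rw [hprod, eig_conj, hsum]
  have h1 : (fun w => (f w : ℤ)) = ∑ w : Emb Z, (if w.2 ∈ (Z.X.factor w.1).Φ then f w else 0) •
      fun x => (n w x : ℤ) := by
    funext x
    rw [Finset.sum_apply]
    have h2 : ∀ w : Emb Z, ((if w.2 ∈ (Z.X.factor w.1).Φ then f w else 0) •
        fun x => (n w x : ℤ)) x = (if w = x then (if w.2 ∈ (Z.X.factor w.1).Φ then (f w : ℤ) else 0)
          else 0) + (if w = conjE x then (if w.2 ∈ (Z.X.factor w.1).Φ then (f w : ℤ) else 0)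
          else 0) := by
      intro w
      change (if w.2 ∈ (Z.X.factor w.1).Φ then f w else 0) •
        (((if x = w then 1 else 0) + if x = conjE w then 1 else 0 : ℕ) : ℤ) = _
      have h3 : x = conjE w ↔ w = conjE x := by
        constructor
        · rintro rfl
          rw [conjE_conjE]
        · rintro rfl
          rw [conjE_conjE]
      have h4 : x = w ↔ w = x := eq_comm
      simp only [h3, h4]
      split_ifs <;> simp <;> ring
    rw [Finset.sum_congr rfl fun w _ => h2 w, Finset.sum_add_distrib,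
      Finset.sum_ite_eq' Finset.univ x, Finset.sum_ite_eq' Finset.univ (conjE x),
      if_pos (Finset.mem_univ _), if_pos (Finset.mem_univ _)]
    have h5 : x.2 ∈ (Z.X.factor x.1).Φ ↔ ¬ (conjE x).2 ∈ (Z.X.factor (conjE x).1).Φ :=
      (Z.X.factor x.1).isCMType x.2
    by_cases h6 : x.2 ∈ (Z.X.factor x.1).Φ
    · rw [if_pos h6, if_neg (h5.1 h6), add_zero]
    · rw [if_neg h6, if_pos (by
        by_contra h7
        exact h6 (h5.2 h7)), zero_add, hf]
  rw [h1]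
  exact AddSubgroup.sum_mem _ fun w _ => AddSubgroup.nsmul_mem _
    (AddSubgroup.subset_closure (hn w)) _

open Pool.Agent.U124.HQ in
/-- Relations whose odd parts are invariant over `K`, up to the supersingular factors. -/
theorem closure_of_inv {Z : RedAV p ν} {K : Type} [Field K] (κ : K →+* ℂ)
    (e : Emb Z → ℕ) (he : IsRel Z e) (hinv : ∀ w, IsSupersingular Z w.1 ∨
      ∀ σ : ℂ ≃+* ℂ, (∀ x, σ (κ x) = κ x) → oddE e (aE Z σ w) = oddE e w) :
    (fun w => (e w : ℤ)) ∈ AddSubgroup.closure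
      {d : Emb Z → ℤ | ∃ n : Emb Z → ℕ, IsRel Z n ∧ (∑ w, n w ≤ 2 ∨ IsInvariant κ Z n) ∧
        ∀ w, d w = n w} := by
  classical
  let f : Emb Z → ℕ := fun w => if IsSupersingular Z w.1 then 0 else e w
  let n : Emb Z → Emb Z → ℕ := fun w x => if x = w then 1 else 0
  have hn : ∀ w : Emb Z, IsSupersingular Z w.1 → IsRel Z (n w) ∧ ∑ x, n w x = 1 := by
    intro w hw
    obtain ⟨s, hs, h⟩ := hw
    have hsum : ∑ x, n w x = 1 := by
      change ∑ x, (if x = w then 1 else 0) = 1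
      rw [Finset.sum_ite_eq' Finset.univ w fun _ => 1, if_pos (Finset.mem_univ _)]
    refine ⟨⟨s, hs, ?_⟩, hsum⟩
    have hprod : ∏ x : Emb Z, eig Z x ^ n w x = eig Z w := by
      have e1 : ∀ x : Emb Z, eig Z x ^ n w x = if x = w then eig Z x else 1 := by
        intro x
        change eig Z x ^ (if x = w then 1 else 0) = _
        split_ifs
        · rw [pow_one]
        · rw [pow_zero]
      rw [Finset.prod_congr rfl fun x _ => e1 x,
        Finset.prod_ite_eq' Finset.univ w fun x => eig Z x, if_pos (Finset.mem_univ _)]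
    rw [hprod, hsum, mul_one]
    have h1 := congrArg w.2 h
    rw [map_pow, map_pow, map_pow, map_natCast] at h1
    exact h1
  have h1 : (fun w => (e w : ℤ)) = (fun w => (f w : ℤ)) +
      ∑ w : Emb Z, (if IsSupersingular Z w.1 then e w else 0) • fun x => (n w x : ℤ) := by
    funext x
    rw [Pi.add_apply, Finset.sum_apply]
    have h2 : ∀ w : Emb Z, ((if IsSupersingular Z w.1 then e w else 0) •
        fun x => (n w x : ℤ)) x = if x = w then (if IsSupersingular Z w.1 then (e w : ℤ) else 0)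
          else 0 := by
      intro w
      change (if IsSupersingular Z w.1 then e w else 0) •
        (((if x = w then 1 else 0 : ℕ)) : ℤ) = _
      split_ifs <;> simp
    rw [Finset.sum_congr rfl fun w _ => h2 w, Finset.sum_ite_eq Finset.univ x,
      if_pos (Finset.mem_univ _)]
    change (e x : ℤ) = ((if IsSupersingular Z x.1 then 0 else e x : ℕ) : ℤ) + _
    split_ifs <;> simp
  have hss : ∀ G : AddSubgroup (Emb Z → ℤ),
      (∀ w, IsSupersingular Z w.1 → (fun x => (n w x : ℤ)) ∈ G) →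
      ∑ w : Emb Z, (if IsSupersingular Z w.1 then e w else 0) • (fun x => (n w x : ℤ)) ∈ G := by
    intro G hG
    refine AddSubgroup.sum_mem _ fun w _ => ?_
    by_cases h2 : IsSupersingular Z w.1
    · rw [if_pos h2]
      exact AddSubgroup.nsmul_mem _ (hG w h2) _
    · rw [if_neg h2, zero_smul]
      exact AddSubgroup.zero_mem _
  have hf : IsRel Z f := by
    rw [isRel_iff_mem] at he ⊢
    have h2 := hss (RelZ Z) fun w hw => (isRel_iff_mem _).1 (hn w hw).1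
    rw [h1] at he
    have h3 := (RelZ Z).sub_mem he h2
    rwa [add_sub_cancel_right] at h3
  have hfo : ∀ w, oddE f w = if IsSupersingular Z w.1 then 0 else oddE e w := by
    intro w
    have e1 : (conjE w).1 = w.1 := rfl
    change ((if IsSupersingular Z w.1 then 0 else e w : ℕ) : ℤ) -
      ((if IsSupersingular Z (conjE w).1 then 0 else e (conjE w) : ℕ) : ℤ) = _
    rw [e1]
    unfold oddE
    split_ifs <;> simp
  rw [h1]
  refine AddSubgroup.add_mem _ ?_ (hss _ fun w hw => AddSubgroup.subset_closure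
    ⟨n w, (hn w hw).1, Or.inl (by rw [(hn w hw).2]; norm_num), fun x => rfl⟩)
  obtain ⟨h4, h5⟩ := split_rel hf
  have h3 : (fun w => (f w : ℤ)) = (fun w => (((oddE f w).toNat : ℕ) : ℤ)) +
      fun w => ((min (f w) (f (conjE w)) : ℕ) : ℤ) := funext h5
  rw [h3]
  refine AddSubgroup.add_mem _ (AddSubgroup.subset_closure ⟨_, h4, Or.inr ?_, fun w => rfl⟩)
    (sym_mem2 {d : Emb Z → ℤ | ∃ n : Emb Z → ℕ, IsRel Z n ∧ (∑ w, n w ≤ 2 ∨
      IsInvariant κ Z n) ∧ ∀ w, d w = n w} (fun n h1 h2 => ⟨n, h1, Or.inl h2, fun w => rfl⟩) _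
      fun w => by rw [conjE_conjE, min_comm])
  intro τ hτ w
  change (oddE f (aE Z τ w)).toNat = (oddE f w).toNat
  rw [hfo, hfo]
  have e1 : (aE Z τ w).1 = w.1 := rfl
  rw [e1]
  by_cases h6 : IsSupersingular Z w.1
  · rw [if_pos h6, if_pos h6]
  · rw [if_neg h6, if_neg h6, ((hinv w).resolve_left h6) τ hτ]

/-- The logarithm of the `p`-adic absolute value of `α ^ 2 / q`. -/
def lg (Z : RedAV p ν) (w : Emb Z) : ℝ :=
  2 * Real.log ‖ν.symm (eig Z w)‖ - Z.a * Real.log ‖(p : PadicAlgCl p)‖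

theorem norm_eig_ne (Z : RedAV p ν) (w : Emb Z) : ‖ν.symm (eig Z w)‖ ≠ 0 := by
  rw [norm_ne_zero_iff]
  exact (map_ne_zero_iff _ ν.symm.injective).2 (Pool.Agent.U124.HQ.eig_ne Z w)

theorem lg_conj (Z : RedAV p ν) (w : Emb Z) : lg Z (conjE w) = -lg Z w := by
  have h1 := congrArg (fun x => Real.log ‖ν.symm x‖) (eig_conj w)
  simp only [map_mul, map_pow, map_natCast, norm_mul, norm_pow] at h1
  rw [Real.log_mul (norm_eig_ne Z w) (norm_eig_ne Z _), Real.log_pow] at h1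
  unfold lg
  linarith

theorem norm_of_lg {Z : RedAV p ν} {w : Emb Z} (h : lg Z w = 0) :
    ‖ν.symm (eig Z w)‖ ^ 2 = ‖(p : PadicAlgCl p)‖ ^ Z.a := by
  have h1 : Real.log (‖ν.symm (eig Z w)‖ ^ 2) = Real.log (‖(p : PadicAlgCl p)‖ ^ Z.a) := by
    rw [Real.log_pow, Real.log_pow]
    unfold lg at h
    push_cast
    linarith
  have h2 : 0 < ‖ν.symm (eig Z w)‖ := lt_of_le_of_ne (norm_nonneg _) (norm_eig_ne Z w).symm
  exact Real.log_injOn_pos (Set.mem_Ioi.2 (pow_pos h2 _)) (Set.mem_Ioi.2 (pow_pos norm_p_pos _)) h1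

theorem lg_of_norm {Z : RedAV p ν} {w : Emb Z}
    (h : ‖ν.symm (eig Z w)‖ ^ 2 = ‖(p : PadicAlgCl p)‖ ^ Z.a) : lg Z w = 0 := by
  have h1 := congrArg Real.log h
  rw [Real.log_pow, Real.log_pow] at h1
  unfold lg
  push_cast at h1
  linarith

theorem lg_of_ss {Z : RedAV p ν} {w : Emb Z} (h : IsSupersingular Z w.1) : lg Z w = 0 := by
  obtain ⟨s, hs, h⟩ := h
  have h1 := congrArg (fun x => Real.log ‖ν.symm (w.2 x)‖) h
  simp only [map_pow, map_natCast, norm_pow] at h1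
  rw [Real.log_pow, Real.log_pow, Real.log_pow] at h1
  have h2 : (s : ℝ) ≠ 0 := by exact_mod_cast hs.ne'
  have h3 : (s : ℝ) * lg Z w = 0 := by
    unfold lg
    change (s : ℝ) * (2 * Real.log ‖ν.symm (w.2 (Z.π w.1))‖ - _) = 0
    push_cast at h1
    linarith
  exact (mul_eq_zero.1 h3).resolve_left h2

open Pool.Agent.U124.HQ in
theorem sum_lg {Z : RedAV p ν} {f : Emb Z → ℤ} (hf : f ∈ RelZ Z) :
    ∑ w, (f w : ℝ) * lg Z w = 0 := by
  rw [mem_RelZ, isOfFinOrder_iff_pow_eq_one] at hf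
  obtain ⟨n, hn, h⟩ := hf
  have h1 : ((∏ w, ((un Z w : ℂˣ) : ℂ) ^ f w) : ℂ) ^ n = 1 := by
    have h2 := congrArg (fun x : ℂˣ => (x : ℂ)) h
    have h3 : ((Pool.Agent.U124.HQ.val Z f : ℂˣ) : ℂ) = ∏ w, ((un Z w : ℂˣ) : ℂ) ^ f w := by
      unfold Pool.Agent.U124.HQ.val
      rw [Units.coe_prod]
      exact Finset.prod_congr rfl fun w _ => Units.val_zpow_eq_zpow_val _ _
    rw [← h3]
    exact h2
  have hun : ∀ w, Real.log ‖ν.symm ((un Z w : ℂˣ) : ℂ)‖ = lg Z w := by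
    intro w
    change Real.log ‖ν.symm (eig Z w ^ 2 / (p : ℂ) ^ Z.a)‖ = _
    have hp : ‖(p : PadicAlgCl p)‖ ≠ 0 := norm_p_pos.ne'
    rw [map_div₀, map_pow, map_pow, map_natCast, norm_div, norm_pow, norm_pow,
      Real.log_div (pow_ne_zero _ (norm_eig_ne Z w)) (pow_ne_zero _ hp), Real.log_pow,
      Real.log_pow]
    unfold lg
    push_cast
    ring
  have hne : ∀ w, ‖ν.symm ((un Z w : ℂˣ) : ℂ)‖ ≠ 0 := by
    intro w
    rw [norm_ne_zero_iff]
    exact (map_ne_zero_iff _ ν.symm.injective).2 (un Z w).ne_zero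
  have h2 := congrArg (fun x => Real.log ‖ν.symm x‖) h1
  simp only [map_pow, map_prod, norm_pow, norm_prod, map_zpow₀, norm_zpow, map_one, norm_one,
    Real.log_one] at h2
  rw [Real.log_pow, Real.log_prod fun w _ => zpow_ne_zero _ (hne w)] at h2
  have h3 := (mul_eq_zero.1 h2).resolve_left (by exact_mod_cast hn.ne')
  rw [← h3]
  refine Finset.sum_congr rfl fun w _ => ?_
  rw [Real.log_zpow, hun]

theorem lg_place {Z : RedAV p ν} {i : Z.X.I} {φ ψ : (Z.X.factor i).E →+* ℂ}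
    (h : SamePlace p ν φ ψ) : lg Z ⟨i, ψ⟩ = lg Z ⟨i, φ⟩ := by
  unfold lg
  have h1 : ‖ν.symm (eig Z ⟨i, ψ⟩)‖ = ‖ν.symm (eig Z ⟨i, φ⟩)‖ := SamePlace.norm h (Z.π i)
  rw [h1]

open Pool.Agent.U124.HQ in
/-- **One pair of places.** -/
theorem odd_zero {Z : RedAV p ν} {e : Emb Z → ℕ} (he : IsRel Z e) (hloc : IsLocal Z e)
    {i : Z.X.I} (hns : ¬ IsSupersingular Z i) (hpair : HasOnePair p ν (Z.X.factor i).E)
    (hfree : IsFreeFactor Z i) (φ1 : (Z.X.factor i).E →+* ℂ) : oddE e ⟨i, φ1⟩ = 0 := by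
  classical
  by_contra hodd
  have hne : e (conjE ⟨i, φ1⟩) ≠ e ⟨i, φ1⟩ := by
    intro h
    refine hodd ?_
    unfold oddE
    rw [h, sub_self]
  have hcc : ∀ ψ : (Z.X.factor i).E →+* ℂ,
      ComplexEmbedding.conjugate (ComplexEmbedding.conjugate ψ) = ψ := fun ψ => star_star ψ
  have hconj : ∀ ψ : (Z.X.factor i).E →+* ℂ,
      (conjE ⟨i, ψ⟩ : Emb Z) = ⟨i, ComplexEmbedding.conjugate ψ⟩ := fun ψ => rfl
  have hφ1 : ¬ SamePlace p ν φ1 (ComplexEmbedding.conjugate φ1) :=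
    fun h => hne (hloc i _ _ h).symm
  obtain ⟨σ, φ, hφ, hσφ, hfix⟩ := hfree.resolve_left fun h => hφ1 (h φ1)
  have hcases : ∀ ψ : (Z.X.factor i).E →+* ℂ, SamePlace p ν ψ (ComplexEmbedding.conjugate ψ) ∨
      SamePlace p ν φ ψ ∨ SamePlace p ν φ (ComplexEmbedding.conjugate ψ) := fun ψ =>
    (hpair φ ψ).resolve_left hφ
  set d0 : ℤ := oddE e ⟨i, φ⟩ with hd0
  have hlgc : ∀ ψ : (Z.X.factor i).E →+* ℂ,
      lg Z ⟨i, ComplexEmbedding.conjugate ψ⟩ = -lg Z ⟨i, ψ⟩ := fun ψ => lg_conj Z ⟨i, ψ⟩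
  -- the values of the odd part and of the logarithm
  have hval : ∀ ψ : (Z.X.factor i).E →+* ℂ, (oddE e ⟨i, ψ⟩ = 0 ∧ lg Z ⟨i, ψ⟩ = 0) ∨
      (oddE e ⟨i, ψ⟩ = d0 ∧ lg Z ⟨i, ψ⟩ = lg Z ⟨i, φ⟩) ∨
        (oddE e ⟨i, ψ⟩ = -d0 ∧ lg Z ⟨i, ψ⟩ = -lg Z ⟨i, φ⟩) := by
    intro ψ
    rcases hcases ψ with h | h | h
    · left
      constructor
      · unfold oddE
        rw [hconj, hloc i _ _ h]
        ring
      · have h1 := lg_place h
        have h2 := hlgc ψ
        linarith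
    · right
      left
      constructor
      · rw [hd0]
        unfold oddE
        rw [hconj, hconj, hloc i _ _ h, hloc i _ _ (SamePlace.conj h)]
      · exact lg_place h
    · right
      right
      have h4 := hloc i _ _ h
      have h5 := hloc i _ _ (SamePlace.conj h)
      rw [hcc] at h5
      constructor
      · rw [hd0]
        unfold oddE
        rw [hconj, hconj, h4, h5]
        ring
      · have h2 := hlgc ψ
        have h3 := lg_place h
        linarith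
  have hd00 : d0 ≠ 0 := by
    intro h
    have h1 : oddE e ⟨i, φ1⟩ = 0 := by
      rcases hval φ1 with h2 | h2 | h2
      · exact h2.1
      · rw [h2.1, h]
      · rw [h2.1, h, neg_zero]
    unfold oddE at h1
    exact hne (by omega)
  have hl0 : lg Z ⟨i, φ⟩ ≠ 0 := by
    intro h0
    refine hns (ss_of_norm i fun ψ => norm_of_lg (Z := Z) (w := ⟨i, ψ⟩) ?_)
    rcases hval ψ with h | h | h
    · exact h.2
    · rw [h.2, h0]
    · rw [h.2, h0, neg_zero]
  have hd0R : (d0 : ℝ) ≠ 0 := by exact_mod_cast hd00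
  have hmem : (oddE e - fun w => oddE e (aE Z σ w)) ∈ RelZ Z :=
    (RelZ Z).sub_mem (oddE_mem he) (act_mem (oddE_mem he) σ)
  have hsum := sum_lg hmem
  have hpos : 0 < ∑ w, (((oddE e - fun w => oddE e (aE Z σ w)) w : ℤ) : ℝ) * lg Z w *
      (d0 * lg Z ⟨i, φ⟩) := by
    refine Finset.sum_pos' ?_ ⟨⟨i, φ⟩, Finset.mem_univ _, ?_⟩
    · rintro ⟨i', ψ⟩ -
      by_cases hi : i' = i
      · subst hi
        have e1 : aE Z σ ⟨i', ψ⟩ = ⟨i', (σ : ℂ →+* ℂ).comp ψ⟩ := rfl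
        have e2 : (oddE e - fun w => oddE e (aE Z σ w)) ⟨i', ψ⟩ =
            oddE e ⟨i', ψ⟩ - oddE e ⟨i', (σ : ℂ →+* ℂ).comp ψ⟩ := rfl
        rw [e2]
        have hsq : 0 ≤ ((d0 : ℝ) * lg Z ⟨i', φ⟩) ^ 2 := sq_nonneg _
        rcases hval ψ with ⟨h1, h2⟩ | ⟨h1, h2⟩ | ⟨h1, h2⟩ <;>
          rcases hval ((σ : ℂ →+* ℂ).comp ψ) with ⟨h3, -⟩ | ⟨h3, -⟩ | ⟨h3, -⟩ <;>
            rw [h1, h2, h3] <;> push_cast <;> nlinarith
      · rcases hfix i' hi with h | h
        · rw [lg_of_ss (w := ⟨i', ψ⟩) h, mul_zero, zero_mul]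
        · have e1 : aE Z σ ⟨i', ψ⟩ = ⟨i', ψ⟩ := by
            rw [aE_apply]
            exact Sigma.ext rfl (heq_of_eq (h ψ))
          have e2 : (oddE e - fun w => oddE e (aE Z σ w)) ⟨i', ψ⟩ = 0 := by
            change oddE e ⟨i', ψ⟩ - oddE e (aE Z σ ⟨i', ψ⟩) = 0
            rw [e1, sub_self]
          rw [e2]
          simp
    · have e2 : (oddE e - fun w => oddE e (aE Z σ w)) ⟨i, φ⟩ = 2 * d0 := by
        change oddE e ⟨i, φ⟩ - oddE e (aE Z σ ⟨i, φ⟩) = 2 * d0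
        have e3 : aE Z σ ⟨i, φ⟩ = conjE ⟨i, φ⟩ := by
          rw [aE_apply]
          exact Sigma.ext rfl (heq_of_eq hσφ)
        rw [e3, oddE_conj, ← hd0]
        ring
      rw [e2]
      have h1 : 0 < ((d0 : ℝ) * lg Z ⟨i, φ⟩) ^ 2 := by
        have h2 : (d0 : ℝ) * lg Z ⟨i, φ⟩ ≠ 0 := mul_ne_zero hd0R hl0
        positivity
      push_cast
      nlinarith
  rw [← Finset.sum_mul, hsum, zero_mul] at hpos
  exact lt_irrefl _ hpos

end

end Pool.Agent.U124.HC
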