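import Pool.Agent.U124.HC.Defs
import Pool.Agent.U124.HD.Final

/-!
# The semilinear maps of the homology given by the crystalline Frobenius and by automorphisms of the
coefficients, and the words which occur in crystalline classes
-/

set_option autoImplicit false
set_option linter.unusedSectionVars false
set_option linter.unusedVariables false

namespace Pool.Agent.U124.HC

open NumberField Pool.Agent.H204R3.CM Pool.Agent.W547.KB Pool.Agent.W547.LD Pool.Agent.W547.HR
  Pool.Agent.W495.TA Module Pool.Agent.TH117.PO Pool.Agent.W976.TA Pool.Agent.W417.TA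
  Pool.Agent.TH117.BL Pool.Agent.W495.TC Pool.Agent.W495.TB Pool.Agent.TH117.F5
  Pool.Agent.N202.QR Pool.Agent.U124.HL Pool.Agent.U124.HD
open scoped TensorProduct

noncomputable section

variable {p : ℕ} [Fact p.Prime] {ν : PadicAlgCl p ≃+* ℂ} {Ω : Type} [Field Ω] [CharZero Ω]
  [Algebra ℚ_[p] Ω] {Y : RedAV p ν}

section sym

variable (D : CrysHomology Ω Y)

theorem exists_iterate (τ : Ω ≃ₐ[ℚ_[p]] Ω) :
    ∃ n : ℕ, ∀ x : D.K₀, τ (algebraMap D.K₀ Ω x) = algebraMap D.K₀ Ω ((D.σ.symm)^[n] x) := by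
  obtain ⟨n, hn⟩ := D.generates (τ.restrictNormal D.K₀)
  refine ⟨n, fun x => ?_⟩
  rw [← hn x]
  exact (AlgEquiv.restrictNormal_commutes τ D.K₀ x).symm

theorem iterate_add (n : ℕ) (v w : D.V₀) :
    D.Φ^[n] (v + w) = D.Φ^[n] v + D.Φ^[n] w := by
  induction n generalizing v w with
  | zero => rfl
  | succ n ih => rw [Function.iterate_succ_apply, D.semilinear.1, ih]; rfl

theorem iterate_smul (n : ℕ) (c : D.K₀) (v : D.V₀) :
    D.Φ^[n] (c • v) = (D.σ.symm)^[n] c • D.Φ^[n] v := by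
  induction n generalizing v c with
  | zero => rfl
  | succ n ih => rw [Function.iterate_succ_apply, D.semilinear.2, ih]; rfl

theorem iterate_comm (n : ℕ) (b : Y.X.H1) (v : D.V₀) :
    D.Φ^[n] (D.ρ b v) = D.ρ b (D.Φ^[n] v) := by
  induction n generalizing v with
  | zero => rfl
  | succ n ih => rw [Function.iterate_succ_apply, D.comm, ih]; rfl

theorem iterate_zero_apply (n : ℕ) : D.Φ^[n] (0 : D.V₀) = 0 := by
  have h := iterate_add D n 0 0
  rw [add_zero] at h
  exact (left_eq_add.1 h)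

variable (τ : Ω ≃ₐ[ℚ_[p]] Ω) (n : ℕ)
  (hn : ∀ x : D.K₀, τ (algebraMap D.K₀ Ω x) = algebraMap D.K₀ Ω ((D.σ.symm)^[n] x))

/-- The map `c ⊗ v ↦ τ c ⊗ Φ ^ n v`. -/
def sym0 : Ω ⊗[D.K₀] D.V₀ →+ Ω ⊗[D.K₀] D.V₀ :=
  TensorProduct.liftAddHom
    { toFun := fun c =>
        { toFun := fun v => τ c ⊗ₜ[D.K₀] (D.Φ^[n] v)
          map_zero' := by rw [iterate_zero_apply, TensorProduct.tmul_zero]
          map_add' := fun v w => by rw [iterate_add, TensorProduct.tmul_add] }
      map_zero' := by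
        ext v
        change τ 0 ⊗ₜ[D.K₀] (D.Φ^[n] v) = 0
        rw [map_zero, TensorProduct.zero_tmul]
      map_add' := fun c d => by
        ext v
        change τ (c + d) ⊗ₜ[D.K₀] (D.Φ^[n] v) = τ c ⊗ₜ[D.K₀] (D.Φ^[n] v) +
          τ d ⊗ₜ[D.K₀] (D.Φ^[n] v)
        rw [map_add, TensorProduct.add_tmul] }
    (by
      intro r c v
      change τ (r • c) ⊗ₜ[D.K₀] (D.Φ^[n] v) = τ c ⊗ₜ[D.K₀] (D.Φ^[n] (r • v))
      rw [iterate_smul, Algebra.smul_def, map_mul, hn, ← Algebra.smul_def,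
        TensorProduct.smul_tmul])

theorem sym0_tmul (c : Ω) (v : D.V₀) :
    sym0 D τ n hn (c ⊗ₜ[D.K₀] v) = τ c ⊗ₜ[D.K₀] (D.Φ^[n] v) := rfl

theorem sym0_smul (c : Ω) (x : Ω ⊗[D.K₀] D.V₀) :
    sym0 D τ n hn (c • x) = τ c • sym0 D τ n hn x := by
  induction x using TensorProduct.induction_on with
  | zero => simp
  | tmul d v =>
    rw [TensorProduct.smul_tmul', sym0_tmul, sym0_tmul, TensorProduct.smul_tmul', smul_eq_mul,
      smul_eq_mul, map_mul]
  | add x y hx hy => rw [smul_add, map_add, hx, hy, map_add, smul_add]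

theorem sym0_comm (b : Y.X.H1) (x : Ω ⊗[D.K₀] D.V₀) :
    sym0 D τ n hn ((D.ρ b).baseChange Ω x) = (D.ρ b).baseChange Ω (sym0 D τ n hn x) := by
  induction x using TensorProduct.induction_on with
  | zero => simp
  | tmul d v =>
    rw [LinearMap.baseChange_tmul, sym0_tmul, sym0_tmul, LinearMap.baseChange_tmul, iterate_comm]
  | add x y hx hy => rw [map_add, map_add, map_add, map_add, hx, hy]

/-- The map on the homology. -/
def sym : TM Ω Y →+ TM Ω Y :=
  (D.e : (Ω ⊗[D.K₀] D.V₀) →ₗ[Ω] TM Ω Y).toAddMonoidHom.comp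
    ((sym0 D τ n hn).comp (D.e.symm : TM Ω Y →ₗ[Ω] (Ω ⊗[D.K₀] D.V₀)).toAddMonoidHom)

theorem sym_e (x : Ω ⊗[D.K₀] D.V₀) : sym D τ n hn (D.e x) = D.e (sym0 D τ n hn x) := by
  change D.e (sym0 D τ n hn (D.e.symm (D.e x))) = _
  rw [LinearEquiv.symm_apply_apply]

theorem sym_smul (c : Ω) (x : TM Ω Y) : sym D τ n hn (c • x) = τ c • sym D τ n hn x := by
  obtain ⟨y, rfl⟩ := D.e.surjective x
  rw [← map_smul, sym_e, sym_e, sym0_smul, map_smul]

theorem sym_comm (b : Y.X.H1) (x : TM Ω Y) :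
    sym D τ n hn ((mulH Y b).baseChange Ω x) = (mulH Y b).baseChange Ω (sym D τ n hn x) := by
  obtain ⟨y, rfl⟩ := D.e.surjective x
  have h : ∀ y, D.e ((D.ρ b).baseChange Ω y) = (mulH Y b).baseChange Ω (D.e y) := D.compat b
  rw [← h, sym_e, sym_e, sym0_comm, h]

theorem iterate_fixed {κ : Type} {f : (κ → D.V₀) → D.K₀} {m : ℕ}
    (hf : ∀ v, D.σ (f fun k => D.Φ (v k)) = (p : D.K₀) ^ m * f v) (n : ℕ) (v : κ → D.V₀) :
    f (fun k => D.Φ^[n] (v k)) = ((p : D.K₀) ^ m) ^ n * (D.σ.symm)^[n] (f v) := by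
  induction n generalizing v with
  | zero => simp
  | succ n ih =>
    have h1 : (fun k => D.Φ^[n + 1] (v k)) = fun k => D.Φ (D.Φ^[n] (v k)) := by
      funext k
      rw [Function.iterate_succ_apply']
    have h2 := hf fun k => D.Φ^[n] (v k)
    have h3 : f (fun k => D.Φ (D.Φ^[n] (v k))) =
        D.σ.symm ((p : D.K₀) ^ m * f fun k => D.Φ^[n] (v k)) := by
      rw [← h2, AlgEquiv.symm_apply_apply]
    rw [h1, h3, ih, map_mul, map_mul, map_pow, map_pow, map_pow, map_natCast,
      Function.iterate_succ_apply', pow_succ]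
    ring

/-- The conjugate form. -/
def conjC {κ : Type} (z : (TM Ω Y) [⋀^κ]→ₗ[Ω] Ω) :
    MultilinearMap Ω (fun _ : κ => Ω ⊗[D.K₀] D.V₀) Ω where
  toFun x := τ.symm (z fun i => D.e (sym0 D τ n hn (x i)))
  map_update_add' := by
    intro _ x i y y'
    have h : ∀ u, (fun i' => D.e (sym0 D τ n hn (Function.update x i u i'))) =
        Function.update (fun i' => D.e (sym0 D τ n hn (x i'))) i (D.e (sym0 D τ n hn u)) := by
      intro u
      funext i'
      by_cases hi : i' = i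
      · subst hi
        simp
      · simp [Function.update_of_ne hi]
    rw [h, h, h, map_add, map_add, z.map_update_add, map_add]
  map_update_smul' := by
    intro _ x i c y
    have h : ∀ u, (fun i' => D.e (sym0 D τ n hn (Function.update x i u i'))) =
        Function.update (fun i' => D.e (sym0 D τ n hn (x i'))) i (D.e (sym0 D τ n hn u)) := by
      intro u
      funext i'
      by_cases hi : i' = i
      · subst hi
        simp
      · simp [Function.update_of_ne hi]
    rw [h, h, sym0_smul, map_smul, z.map_update_smul, smul_eq_mul, map_mul, smul_eq_mul]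
    congr 1
    exact τ.symm_apply_apply c

/-- Crystalline classes and the semilinear maps. -/
theorem map_sym {κ : Type} [Finite κ] (z : (TM Ω Y) [⋀^κ]→ₗ[Ω] Ω) (hz : D.IsFixed z) :
    ∃ c : Ω, c ≠ 0 ∧ ∀ x : κ → TM Ω Y, z (fun i => sym D τ n hn (x i)) = c * τ (z x) := by
  obtain ⟨f, m, hf, hfix⟩ := hz
  let c : ℚ_[p] := ((p : ℚ_[p]) ^ m) ^ n
  have hc : algebraMap ℚ_[p] Ω c ≠ 0 := by
    refine (map_ne_zero _).2 (pow_ne_zero _ (pow_ne_zero _ ?_))
    exact Nat.cast_ne_zero.2 (Fact.out : p.Prime).ne_zero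
  refine ⟨algebraMap ℚ_[p] Ω c, hc, fun x => ?_⟩
  have h : conjC D τ n hn z = (algebraMap ℚ_[p] Ω c) •
      z.toMultilinearMap.compLinearMap fun _ => (D.e : (Ω ⊗[D.K₀] D.V₀) →ₗ[Ω] TM Ω Y) := by
    let b := Basis.ofVectorSpace D.K₀ D.V₀
    refine Basis.ext_multilinear (fun _ => b.baseChange Ω) fun v => ?_
    have h1 : ∀ i, (b.baseChange Ω) (v i) = (1 : Ω) ⊗ₜ[D.K₀] b (v i) := fun i =>
      Basis.baseChange_apply _ _ _
    change τ.symm (z fun i => D.e (sym0 D τ n hn ((b.baseChange Ω) (v i)))) =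
      algebraMap ℚ_[p] Ω c • z fun i => D.e ((b.baseChange Ω) (v i))
    simp only [h1, sym0_tmul, map_one]
    rw [hf, hf, iterate_fixed D hfix, AlgEquiv.symm_apply_eq, smul_eq_mul,
      map_mul (algebraMap D.K₀ Ω), map_mul τ, AlgEquiv.commutes, hn]
    congr 1
    rw [IsScalarTower.algebraMap_apply ℚ_[p] D.K₀ Ω]
    congr 1
    simp [c]
  have h2 : τ.symm (z fun i => D.e (sym0 D τ n hn (D.e.symm (x i)))) =
      algebraMap ℚ_[p] Ω c • z fun i => D.e (D.e.symm (x i)) :=
    DFunLike.congr_fun h fun i => D.e.symm (x i)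
  simp only [LinearEquiv.apply_symm_apply] at h2
  rw [AlgEquiv.symm_apply_eq, smul_eq_mul, map_mul, AlgEquiv.commutes] at h2
  exact h2

end sym

section occ

variable {L : Type} [Field L] [NumberField L] [IsCMField L] [IsGalois ℚ L] {j : L →+* ℂ}
  {jO : L →+* Ω} {C : (Y : RedAV p ν) → (κ : Type) → ((TM Ω Y) [⋀^κ]→ₗ[Ω] Ω) → Prop}

theorem co_mulH (w : Wt Y.X L) (b : Y.X.H1) (x : TM Ω Y) :
    co jO w ((mulH Y b).baseChange Ω x) = jO (w.2 (b w.1)) * co jO w x := by
  induction x using TensorProduct.induction_on with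
  | zero => simp
  | tmul c h =>
    rw [LinearMap.baseChange_tmul]
    unfold co
    rw [LinearMap.liftBaseChange_tmul, LinearMap.liftBaseChange_tmul, smul_eq_mul, smul_eq_mul]
    change c * jO (w.2 (b w.1 * h w.1)) = jO (w.2 (b w.1)) * (c * jO (w.2 (h w.1)))
    rw [map_mul, map_mul]
    ring
  | add x y hx hy => rw [map_add, map_add, hx, hy, map_add, mul_add]

/-- Different weights are separated by elements of the product of the fields. -/
theorem exists_sep {X : CMAV} {w w' : Wt X L} (h : w ≠ w') :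
    ∃ b : X.H1, w.2 (b w.1) ≠ w'.2 (b w'.1) := by
  classical
  by_contra hcon
  push Not at hcon
  obtain ⟨i, φ⟩ := w
  obtain ⟨i', φ'⟩ := w'
  by_cases hi : i = i'
  · subst hi
    refine h (Sigma.ext rfl (heq_of_eq ?_))
    ext x
    have h1 := hcon (Pi.single i x)
    simpa using h1
  · have h1 := hcon (Pi.single i 1)
    have h2 : (Pi.single i (1 : (X.factor i).E) : X.H1) i' = 0 :=
      Pi.single_eq_of_ne (Ne.symm hi) _
    change φ ((Pi.single i (1 : (X.factor i).E) : X.H1) i) =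
      φ' ((Pi.single i (1 : (X.factor i).E) : X.H1) i') at h1
    rw [Pi.single_eq_same, h2, map_one, map_zero] at h1
    exact one_ne_zero h1

/-- The words which occur in crystalline classes are permuted by the decomposition group at `p`. -/
theorem galois_crys (hC : IsCycleSystem Ω C) (hQ : AreCrystalline Ω C) {Y : RedAV p ν}
    (hB : Big Y.X j) {κ : Type} [Fintype κ] [DecidableEq κ] {s : κ → Wt Y.X L}
    (hs : Function.Injective s) (h : Occ jO C Y s) {g : L ≃ₐ[ℚ] L} (hg : g ∈ Dk ℚ_[p] jO) :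
    Occ jO C Y fun i => sw g (s i) := by
  obtain ⟨c, c', hc, h1⟩ := h
  obtain ⟨τ, hτ⟩ := hg
  obtain ⟨e, e1, e0⟩ := Pool.Agent.W67.TA.basis p ν Ω L j jO Y hB
  obtain ⟨z, hz, hz1⟩ := exists_class e e1 e0 hs h1 hc
  obtain ⟨D, hD⟩ := hQ z hz
  obtain ⟨n, hn⟩ := exists_iterate D τ
  have hi : Function.Injective fun i => sw g (s i) := fun i i' hii => hs (sw_inj g hii)
  refine ⟨_, _, ?_, Ln_coef hC j hB e e1 e0 hz hi⟩
  obtain ⟨a, ha, h2⟩ := map_sym D τ n hn z hD
  have h3 := h2 fun i => e (s i)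
  have hcoord : ∀ w, e.coord w = co jO w := by
    intro w
    refine e.ext fun w' => ?_
    rw [Basis.coord_apply, e.repr_self]
    by_cases hw : w' = w
    · subst hw
      rw [Finsupp.single_eq_same, e1]
    · rw [Finsupp.single_eq_of_ne (Ne.symm hw), e0 w w' (Ne.symm hw)]
  have hmul : ∀ (b : Y.X.H1) (w : Wt Y.X L),
      (mulH Y b).baseChange Ω (e w) = jO (w.2 (b w.1)) • e w := by
    intro b w
    refine e.ext_elem fun w' => ?_
    have h4 : ∀ x, e.repr x w' = co jO w' x := fun x => by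
      rw [← hcoord]
      rfl
    rw [h4, h4, co_mulH, map_smul, smul_eq_mul]
    by_cases hw : w' = w
    · rw [hw]
    · rw [e0 w' w hw, mul_zero, mul_zero]
  have hsym : ∀ w, ∃ d : Ω, sym D τ n hn (e w) = d • e (sw g w) := by
    intro w
    refine ⟨co jO (sw g w) (sym D τ n hn (e w)), e.ext_elem fun w' => ?_⟩
    have h4 : ∀ x, e.repr x w' = co jO w' x := fun x => by
      rw [← hcoord]
      rfl
    rw [h4, h4, map_smul, smul_eq_mul]
    by_cases hw : w' = sw g w
    · rw [hw, e1, mul_one]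
    · rw [e0 w' _ hw, mul_zero]
      obtain ⟨b, hb⟩ := exists_sep hw
      have h5 := congrArg (co jO w') (sym_comm D τ n hn b (e w))
      rw [hmul, sym_smul, map_smul, smul_eq_mul, co_mulH, hτ] at h5
      by_contra h6
      have h7 := mul_right_cancel₀ h6 h5
      exact hb (jO.injective h7).symm
  choose d hd using hsym
  have h8 : (fun i => sym D τ n hn (e (s i))) = fun i => d (s i) • e (sw g (s i)) :=
    funext fun i => hd (s i)
  rw [h8, z.map_smul_univ] at h3
  have h9 : a * τ (z fun i => e (s i)) ≠ 0 :=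
    mul_ne_zero ha ((map_ne_zero_iff τ τ.injective).2 hz1)
  rw [← h3] at h9
  exact right_ne_zero_of_smul h9

end occ

end

end Pool.Agent.U124.HC
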